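import Pool.Agent.H49.Fdom.Lower.Branch1

/-!
The direct construction.
-/

set_option autoImplicit false
set_option linter.unusedSectionVars false

namespace Pool.Agent.H49.Fdom

open Finset

/-- Orient the edges of a multigraph (half-edges `T`, opposite half-edge `π t`, endpoint `n t`) so
that no vertex of degree at least two is a source or a sink. -/
theorem orient {α : Type} : ∀ (m : ℕ) (T : Finset α) (π n : α → α), T.card = m →
    (∀ t ∈ T, π t ∈ T ∧ π t ≠ t ∧ π (π t) = t) →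
    ∃ o : α → Prop, (∀ t ∈ T, (o (π t) ↔ ¬ o t)) ∧
      ∀ t1 ∈ T, ∀ t2 ∈ T, t1 ≠ t2 → n t1 = n t2 →
        ∃ s1 ∈ T, ∃ s2 ∈ T, n s1 = n t1 ∧ n s2 = n t1 ∧ o s1 ∧ ¬ o s2 := by
  classical
  intro m
  induction m using Nat.strong_induction_on with
  | _ m ih =>
    intro T π n hm hπ
    by_cases hT : T = ∅
    · subst hT
      exact ⟨fun _ => True, by simp, by simp⟩
    obtain ⟨t, ht⟩ := Finset.nonempty_iff_ne_empty.2 hT
    obtain ⟨hs, hst, hπs⟩ := hπ t ht
    set s := π t with hsdef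
    set T0 := (T.erase t).erase s with hT0
    have hmem0 : ∀ r, r ∈ T0 ↔ r ≠ s ∧ r ≠ t ∧ r ∈ T := fun r => by
      rw [hT0, Finset.mem_erase, Finset.mem_erase]
    have hcard : T0.card < m := by
      rw [← hm]
      refine Finset.card_lt_card ⟨fun r hr => ((hmem0 r).1 hr).2.2, fun h => ?_⟩
      exact ((hmem0 t).1 (h ht)).2.1 rfl
    have hπ0 : ∀ r ∈ T0, π r ∈ T0 ∧ π r ≠ r ∧ π (π r) = r := by
      intro r hr
      obtain ⟨h1, h2, h3⟩ := (hmem0 r).1 hr
      obtain ⟨h4, h5, h6⟩ := hπ r h3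
      refine ⟨(hmem0 _).2 ⟨?_, ?_, h4⟩, h5, h6⟩
      · intro h
        rw [h, hπs] at h6
        exact h2 h6.symm
      · intro h
        rw [h] at h6
        exact h1 h6.symm
    let n' : α → α := fun x => if n x = n s then n t else n x
    have hn' : ∀ x, n x = n s → n' x = n t := fun x hx => by simp only [n', if_pos hx]
    have hn'' : ∀ x, n x ≠ n s → n' x = n x := fun x hx => by simp only [n', if_neg hx]
    obtain ⟨o0, ho1, ho2⟩ := ih T0.card hcard T0 π n' rfl hπ0
    -- it suffices to choose the value at `t`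
    have main : ∀ b : Prop,
        ((∃ t' ∈ T0, n t' = n t) → n t ≠ n s →
          ((∃ t' ∈ T0, n t' = n t ∧ (o0 t' ↔ ¬ b)) ∨
            ∃ x ∈ T0, ∃ y ∈ T0, n x = n t ∧ n y = n t ∧ o0 x ∧ ¬ o0 y)) →
        ((∃ s' ∈ T0, n s' = n s) → n t ≠ n s →
          ((∃ s' ∈ T0, n s' = n s ∧ (o0 s' ↔ b)) ∨
            ∃ x ∈ T0, ∃ y ∈ T0, n x = n s ∧ n y = n s ∧ o0 x ∧ ¬ o0 y)) →
        ∃ o : α → Prop, (∀ t ∈ T, (o (π t) ↔ ¬ o t)) ∧
          ∀ t1 ∈ T, ∀ t2 ∈ T, t1 ≠ t2 → n t1 = n t2 →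
            ∃ s1 ∈ T, ∃ s2 ∈ T, n s1 = n t1 ∧ n s2 = n t1 ∧ o s1 ∧ ¬ o s2 := by
      intro b hb1 hb2
      let o : α → Prop := fun x => if x = t then b else if x = s then ¬ b else o0 x
      have hot : o t ↔ b := by simp [o]
      have hos : o s ↔ ¬ b := by simp [o, hst]
      have hoo : ∀ r ∈ T0, (o r ↔ o0 r) := fun r hr => by
        obtain ⟨h1, h2, h3⟩ := (hmem0 r).1 hr
        simp only [o, if_neg h1, if_neg h2]
      have hT0T : ∀ r ∈ T0, r ∈ T := fun r hr => ((hmem0 r).1 hr).2.2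
      refine ⟨o, fun r hr => ?_, fun t1 ht1 t2 ht2 hne hn => ?_⟩
      · by_cases h1 : r = t
        · rw [h1, ← hsdef, hos, hot]
        · by_cases h2 : r = s
          · rw [h2, hπs, hos, hot, not_not]
          · have hr0 := (hmem0 r).2 ⟨h2, h1, hr⟩
            rw [hoo _ (hπ0 r hr0).1, hoo r hr0]
            exact ho1 r hr0
      · by_cases hts : n t = n s
        · by_cases hc : n t1 = n t
          · by_cases hb : b
            · exact ⟨t, ht, s, hs, hc.symm, hts.symm.trans hc.symm, hot.2 hb,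
                fun h => (hos.1 h) hb⟩
            · exact ⟨s, hs, t, ht, hts.symm.trans hc.symm, hc.symm, hos.2 hb,
                fun h => hb (hot.1 h)⟩
          · have e1 : ∀ x, n' x = n x := fun x => by
              by_cases h : n x = n s
              · rw [hn' x h, hts, h]
              · exact hn'' x h
            have f1 : t1 ∈ T0 := (hmem0 _).2 ⟨fun h => hc (by rw [h, hts]), fun h => hc (by rw [h]),
              ht1⟩
            have f2 : t2 ∈ T0 := (hmem0 _).2 ⟨fun h => hc (by rw [hn, h, hts]),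
              fun h => hc (by rw [hn, h]), ht2⟩
            obtain ⟨s1, g1, s2, g2, g3, g4, g5, g6⟩ := ho2 t1 f1 t2 f2 hne (by rw [e1, e1, hn])
            rw [e1, e1] at g3 g4
            exact ⟨s1, hT0T s1 g1, s2, hT0T s2 g2, g3, g4, (hoo s1 g1).2 g5,
              fun h => g6 ((hoo s2 g2).1 h)⟩
        · by_cases hc : n t1 = n t
          · -- the class of `t`
            have hex : ∃ t' ∈ T0, n t' = n t := by
              by_cases h1 : t1 = t
              · refine ⟨t2, (hmem0 _).2 ⟨fun h => ?_, fun h => hne (h1.trans h.symm), ht2⟩,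
                  hn.symm.trans hc⟩
                rw [h] at hn
                exact hts (hc.symm.trans hn)
              · refine ⟨t1, (hmem0 _).2 ⟨fun h => ?_, h1, ht1⟩, hc⟩
                rw [h] at hc
                exact hts hc.symm
            rcases hb1 hex hts with ⟨t', g1, g2, g3⟩ | ⟨x, g1, y, g2, g3, g4, g5, g6⟩
            · by_cases hb : b
              · exact ⟨t, ht, t', hT0T t' g1, hc.symm, g2.trans hc.symm, hot.2 hb,
                  fun h => (g3.1 ((hoo t' g1).1 h)) hb⟩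
              · exact ⟨t', hT0T t' g1, t, ht, g2.trans hc.symm, hc.symm,
                  (hoo t' g1).2 (g3.2 hb), fun h => hb (hot.1 h)⟩
            · exact ⟨x, hT0T x g1, y, hT0T y g2, g3.trans hc.symm, g4.trans hc.symm,
                (hoo x g1).2 g5, fun h => g6 ((hoo y g2).1 h)⟩
          · by_cases hd : n t1 = n s
            · -- the class of `s`
              have hex : ∃ s' ∈ T0, n s' = n s := by
                by_cases h1 : t1 = s
                · refine ⟨t2, (hmem0 _).2 ⟨fun h => hne (h1.trans h.symm), fun h => ?_, ht2⟩,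
                    hn.symm.trans hd⟩
                  rw [h] at hn
                  exact hc hn
                · refine ⟨t1, (hmem0 _).2 ⟨h1, fun h => ?_, ht1⟩, hd⟩
                  rw [h] at hd
                  exact hts hd
              rcases hb2 hex hts with ⟨s', g1, g2, g3⟩ | ⟨x, g1, y, g2, g3, g4, g5, g6⟩
              · by_cases hb : b
                · exact ⟨s', hT0T s' g1, s, hs, g2.trans hd.symm, hd.symm,
                    (hoo s' g1).2 (g3.2 hb), fun h => (hos.1 h) hb⟩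
                · exact ⟨s, hs, s', hT0T s' g1, hd.symm, g2.trans hd.symm, hos.2 hb,
                    fun h => hb (g3.1 ((hoo s' g1).1 h))⟩
              · exact ⟨x, hT0T x g1, y, hT0T y g2, g3.trans hd.symm, g4.trans hd.symm,
                  (hoo x g1).2 g5, fun h => g6 ((hoo y g2).1 h)⟩
            · -- another class
              have f1 : t1 ∈ T0 := (hmem0 _).2 ⟨fun h => hd (by rw [h]), fun h => hc (by rw [h]),
                ht1⟩
              have f2 : t2 ∈ T0 := (hmem0 _).2 ⟨fun h => hd (by rw [hn, h]),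
                fun h => hc (by rw [hn, h]), ht2⟩
              obtain ⟨s1, g1, s2, g2, g3, g4, g5, g6⟩ := ho2 t1 f1 t2 f2 hne
                (by rw [hn'' _ hd, hn'' _ (by rw [← hn]; exact hd), hn])
              rw [hn'' t1 hd] at g3 g4
              have g3' : n s1 = n t1 := by
                by_cases h : n s1 = n s
                · rw [hn' s1 h] at g3
                  exact absurd g3.symm hc
                · rwa [hn'' s1 h] at g3
              have g4' : n s2 = n t1 := by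
                by_cases h : n s2 = n s
                · rw [hn' s2 h] at g4
                  exact absurd g4.symm hc
                · rwa [hn'' s2 h] at g4
              exact ⟨s1, hT0T s1 g1, s2, hT0T s2 g2, g3', g4', (hoo s1 g1).2 g5,
                fun h => g6 ((hoo s2 g2).1 h)⟩
    -- choose the value at `t`
    by_cases hconst : ∃ t' ∈ T0, n t' = n t ∧ ∀ x ∈ T0, n x = n t → (o0 x ↔ o0 t')
    · obtain ⟨t', g1, g2, g3⟩ := hconst
      refine main (¬ o0 t') (fun _ _ => Or.inl ⟨t', g1, g2, by rw [not_not]⟩) ?_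
      rintro ⟨s', k1, k2⟩ hts
      have hne : t' ≠ s' := by
        rintro rfl
        exact hts (g2.symm.trans k2)
      obtain ⟨s1, l1, s2, l2, l3, l4, l5, l6⟩ := ho2 t' g1 s' k1 hne
        (by rw [hn' s' k2, hn'' t' (by rw [g2]; exact hts), g2])
      rw [hn'' t' (by rw [g2]; exact hts), g2] at l3 l4
      by_cases ho : o0 t'
      · -- `s2` is in the class of `s`
        have h1 : n s2 = n s := by
          by_contra h
          rw [hn'' s2 h] at l4
          exact l6 ((g3 s2 l2 l4).2 ho)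
        exact Or.inl ⟨s2, l2, h1, by tauto⟩
      · have h1 : n s1 = n s := by
          by_contra h
          rw [hn'' s1 h] at l3
          exact ho ((g3 s1 l1 l3).1 l5)
        exact Or.inl ⟨s1, l1, h1, by tauto⟩
    · push Not at hconst
      refine main (∃ s' ∈ T0, n s' = n s ∧ o0 s') ?_ ?_
      · rintro ⟨t', g1, g2⟩ _
        obtain ⟨x, k1, k2, k3⟩ := hconst t' g1 g2
        rcases k3 with ⟨k3, k4⟩ | ⟨k3, k4⟩
        · exact Or.inr ⟨x, k1, t', g1, k2, g2, k3, k4⟩
        · exact Or.inr ⟨t', g1, x, k1, g2, k2, k4, k3⟩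
      · rintro ⟨s', k1, k2⟩ _
        by_cases hex : ∃ s' ∈ T0, n s' = n s ∧ o0 s'
        · obtain ⟨s'', l1, l2, l3⟩ := hex
          exact Or.inl ⟨s'', l1, l2, ⟨fun _ => ⟨s'', l1, l2, l3⟩, fun _ => l3⟩⟩
        · refine Or.inl ⟨s', k1, k2, ⟨fun h => absurd ⟨s', k1, k2, h⟩ hex, fun h => absurd h hex⟩⟩

variable {V : Type} [Fintype V]

/-- a random set with marginals `2/5` and pair probabilities `1/5` -/
theorem exists_pairwise (V : Type) [Fintype V] :
    ∃ (S : Sp) (A : S.Ω → V → Prop), (∀ v, S.Pr (fun ω => A ω v) = 2 / 5) ∧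
      ∀ v w, v ≠ w → S.Pr (fun ω => A ω v ∧ A ω w) = 1 / 5 := by
  classical
  have key : ∀ s : Finset V, ∃ (S : Sp) (f : S.Ω → V → Prop),
      (∀ v ∈ s, S.Pr (fun ω => f ω v) = 1 / 2) ∧
      ∀ v ∈ s, ∀ w ∈ s, v ≠ w → S.Pr (fun ω => f ω v ∧ f ω w) = 1 / 4 := by
    intro s
    induction s using Finset.induction_on with
    | empty => exact ⟨S5, fun _ _ => True, by simp, by simp⟩
    | insert v0 s hv0 ih =>
      obtain ⟨S, f, h1, h2⟩ := ih
      obtain ⟨R, φ, b, hφ, hb⟩ := S.coin (1 / 2) (by norm_num) (by norm_num)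
      have hR : R.Pr b = 1 / 2 := by
        have e1 := hb (fun _ => True)
        rw [S.Pr_true] at e1
        have e2 : R.Pr b = R.Pr (fun ω => True ∧ b ω) := Sp.Pr_congr fun ω => by simp
        rw [e2, e1]
        norm_num
      let g : R.Ω → V → Prop := fun ω v => if v = v0 then b ω else f (φ ω) v
      have hg0 : ∀ ω, g ω v0 ↔ b ω := fun ω => by simp [g]
      have hg : ∀ ω v, v ≠ v0 → (g ω v ↔ f (φ ω) v) := fun ω v hv => by simp [g, hv]
      refine ⟨R, g, fun v hv => ?_, fun v hv w hw hvw => ?_⟩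
      · by_cases h : v = v0
        · rw [h, Sp.Pr_congr hg0, hR]
        · rw [Sp.Pr_congr fun ω => hg ω v h, hφ (fun ω => f ω v)]
          exact h1 v ((Finset.mem_insert.1 hv).resolve_left h)
      · by_cases h : v = v0
        · have hw0 : w ≠ v0 := fun h' => hvw (h.trans h'.symm)
          have hws := (Finset.mem_insert.1 hw).resolve_left hw0
          have e1 : R.Pr (fun ω => g ω v ∧ g ω w) = R.Pr (fun ω => f (φ ω) w ∧ b ω) := by
            refine Sp.Pr_congr fun ω => ?_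
            rw [h, hg0, hg ω w hw0]
            exact and_comm
          rw [e1, hb (fun ω => f ω w), h1 w hws]
          norm_num
        · have hvs := (Finset.mem_insert.1 hv).resolve_left h
          by_cases h' : w = v0
          · have e1 : R.Pr (fun ω => g ω v ∧ g ω w) = R.Pr (fun ω => f (φ ω) v ∧ b ω) := by
              refine Sp.Pr_congr fun ω => ?_
              rw [h', hg0, hg ω v h]
            rw [e1, hb (fun ω => f ω v), h1 v hvs]
            norm_num
          · have hws := (Finset.mem_insert.1 hw).resolve_left h'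
            have e1 : R.Pr (fun ω => g ω v ∧ g ω w) = R.Pr (fun ω => f (φ ω) v ∧ f (φ ω) w) := by
              refine Sp.Pr_congr fun ω => ?_
              rw [hg ω v h, hg ω w h']
            rw [e1, hφ (fun ω => f ω v ∧ f ω w)]
            exact h2 v hvs w hws hvw
  obtain ⟨S, f, h1, h2⟩ := key Finset.univ
  obtain ⟨R, φ, b, hφ, hb⟩ := S.coin (4 / 5) (by norm_num) (by norm_num)
  refine ⟨R, fun ω v => f (φ ω) v ∧ b ω, fun v => ?_, fun v w hvw => ?_⟩
  · rw [hb (fun ω => f ω v), h1 v (Finset.mem_univ v)]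
    norm_num
  · have e1 : R.Pr (fun ω => (f (φ ω) v ∧ b ω) ∧ (f (φ ω) w ∧ b ω)) =
        R.Pr (fun ω => (f (φ ω) v ∧ f (φ ω) w) ∧ b ω) := Sp.Pr_congr fun ω => by tauto
    rw [e1, hb (fun ω => f ω v ∧ f ω w), h2 v (Finset.mem_univ v) w (Finset.mem_univ w) hvw]
    norm_num

/-- a vertex of degree two with a neighbour of degree two -/
def isT (G : SimpleGraph V) (t : V) : Prop := dg G t = 2 ∧ ∃ s, G.Adj t s ∧ dg G s = 2

open Classical in
/-- the neighbour of degree two -/
noncomputable def lk (G : SimpleGraph V) (t : V) : V :=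
  if h : ∃ s, G.Adj t s ∧ dg G s = 2 then h.choose else t

/-- the neighbour of degree different from two -/
noncomputable def br (G : SimpleGraph V) (t : V) : V := oth G t (lk G t)

theorem lk_spec {G : SimpleGraph V} {t : V} (ht : isT G t) :
    G.Adj t (lk G t) ∧ dg G (lk G t) = 2 := by
  have h : lk G t = ht.2.choose := by
    unfold lk
    rw [dif_pos ht.2]
  rw [h]
  exact ht.2.choose_spec

theorem br_spec {G : SimpleGraph V} (hp3 : ¬ ∃ c, LinkPath G 3 c) {t : V} (ht : isT G t) :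
    br G t ≠ lk G t ∧ G.Adj t (br G t) ∧ dg G (br G t) ≠ 2 ∧
      ∀ w, G.Adj t w ↔ w = lk G t ∨ w = br G t := by
  obtain ⟨h1, h2⟩ := lk_spec ht
  obtain ⟨h3, h4, h5⟩ := oth_spec ht.1 h1
  exact ⟨h3, h4, fun h => no_three_links hp3 h ht.1 h2 h4.symm h1 h3, h5⟩

theorem lk_unique {G : SimpleGraph V} (hp3 : ¬ ∃ c, LinkPath G 3 c) {t s : V} (ht : isT G t)
    (hs : G.Adj t s) (hs2 : dg G s = 2) : s = lk G t := by
  obtain ⟨-, -, h3, h4⟩ := br_spec hp3 ht
  rcases (h4 s).1 hs with h | h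
  · exact h
  · exact absurd (h ▸ hs2) h3

theorem br_unique {G : SimpleGraph V} (hp3 : ¬ ∃ c, LinkPath G 3 c) {t s : V} (ht : isT G t)
    (hs : G.Adj t s) (hs2 : dg G s ≠ 2) : s = br G t := by
  obtain ⟨-, -, h3, h4⟩ := br_spec hp3 ht
  rcases (h4 s).1 hs with h | h
  · exact absurd (h ▸ (lk_spec ht).2) hs2
  · exact h

theorem lk_isT {G : SimpleGraph V} {t : V} (ht : isT G t) : isT G (lk G t) :=
  ⟨(lk_spec ht).2, t, (lk_spec ht).1.symm, ht.1⟩

theorem lk_lk {G : SimpleGraph V} (hp3 : ¬ ∃ c, LinkPath G 3 c) {t : V} (ht : isT G t) :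
    lk G (lk G t) = t :=
  (lk_unique hp3 (lk_isT ht) (lk_spec ht).1.symm ht.1).symm

/-- the direct construction -/
theorem step_final {G : SimpleGraph V} (hNS : NS 8 G) (hleaf : ∀ v, dg G v ≠ 1)
    (hbb : ∀ a b, 3 ≤ dg G a → 3 ≤ dg G b → ¬ G.Adj a b) (hp3 : ¬ ∃ c, LinkPath G 3 c)
    (hs : ∀ v, 3 ≤ dg G v → ∃ a b, a ≠ b ∧ G.Adj v a ∧ G.Adj v b ∧ dg G (oth G a v) = 2 ∧
      dg G (oth G b v) = 2) : Good G := by
  classical
  obtain ⟨S, A, hA1, hA2⟩ := exists_pairwise V
  -- pair probabilities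
  have hnn : ∀ v w, v ≠ w → S.Pr (fun ω => ¬ A ω v ∧ ¬ A ω w) = 2 / 5 := by
    intro v w hvw
    have e1 := S.Pr_split (fun ω => A ω w) (fun ω => A ω v)
    have e2 : S.Pr (fun ω => A ω w ∧ A ω v) = 1 / 5 := hA2 w v (Ne.symm hvw)
    have e3 := S.Pr_split (fun ω => ¬ A ω v) (fun ω => A ω w)
    have e4 : S.Pr (fun ω => ¬ A ω v ∧ A ω w) = S.Pr (fun ω => A ω w ∧ ¬ A ω v) :=
      Sp.Pr_congr fun ω => and_comm
    rw [S.Pr_not, hA1] at e3
    rw [hA1, e2] at e1
    linarith
  have hnp : ∀ v w, v ≠ w → S.Pr (fun ω => ¬ A ω v ∧ A ω w) = 1 / 5 := by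
    intro v w hvw
    have e1 := S.Pr_split (fun ω => A ω w) (fun ω => A ω v)
    have e2 : S.Pr (fun ω => A ω w ∧ A ω v) = 1 / 5 := hA2 w v (Ne.symm hvw)
    have e4 : S.Pr (fun ω => ¬ A ω v ∧ A ω w) = S.Pr (fun ω => A ω w ∧ ¬ A ω v) :=
      Sp.Pr_congr fun ω => and_comm
    rw [hA1, e2] at e1
    linarith
  -- the orientations
  let T : S.Ω → Finset V := fun ω => Finset.univ.filter fun t =>
    isT G t ∧ ¬ A ω (br G t) ∧ ¬ A ω (br G (lk G t))
  have hTmem : ∀ ω t, t ∈ T ω ↔ isT G t ∧ ¬ A ω (br G t) ∧ ¬ A ω (br G (lk G t)) :=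
    fun ω t => by simp [T]
  have hor : ∀ ω, ∃ o : V → Prop, (∀ t ∈ T ω, (o (lk G t) ↔ ¬ o t)) ∧
      ∀ t1 ∈ T ω, ∀ t2 ∈ T ω, t1 ≠ t2 → br G t1 = br G t2 →
        ∃ s1 ∈ T ω, ∃ s2 ∈ T ω, br G s1 = br G t1 ∧ br G s2 = br G t1 ∧ o s1 ∧ ¬ o s2 := by
    intro ω
    refine orient _ (T ω) (lk G) (br G) rfl fun t ht => ?_
    obtain ⟨h1, h2, h3⟩ := (hTmem ω t).1 ht
    refine ⟨(hTmem ω _).2 ⟨lk_isT h1, h3, ?_⟩, (lk_spec h1).1.ne', lk_lk hp3 h1⟩
    rw [lk_lk hp3 h1]
    exact h2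
  choose o ho1 ho2 using hor
  obtain ⟨R, φ, c, hφ, hc⟩ := S.coin (1 / 2) (by norm_num) (by norm_num)
  let z : R.Ω → V → Prop := fun ω u =>
    if dg G u = 2 then
      if isT G u then
        (¬ A (φ ω) (br G u) ∧ (A (φ ω) (br G (lk G u)) ∨ (o (φ ω) u ↔ c ω)))
      else ∀ w, G.Adj u w → ¬ A (φ ω) w
    else A (φ ω) u
  have hzT : ∀ ω u, isT G u →
      (z ω u ↔ (¬ A (φ ω) (br G u) ∧ (A (φ ω) (br G (lk G u)) ∨ (o (φ ω) u ↔ c ω)))) :=
    fun ω u hu => by simp only [z, if_pos hu.1, if_pos hu]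
  have hzM : ∀ ω u, dg G u = 2 → ¬ isT G u → (z ω u ↔ ∀ w, G.Adj u w → ¬ A (φ ω) w) :=
    fun ω u hu hu' => by simp only [z, if_pos hu, if_neg hu']
  have hzW : ∀ ω u, dg G u ≠ 2 → (z ω u ↔ A (φ ω) u) :=
    fun ω u hu => by simp only [z, if_neg hu]
  refine good_of_le' hleaf R z (fun u => ?_) (fun ω u hu => ?_)
  · by_cases hu2 : dg G u = 2
    · by_cases huT : isT G u
      · rw [Sp.Pr_congr fun ω => hzT ω u huT]
        have hne : br G u ≠ br G (lk G u) := by
          intro h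
          obtain ⟨-, h1, -, -⟩ := br_spec hp3 huT
          obtain ⟨-, h2, -, -⟩ := br_spec hp3 (lk_isT huT)
          rw [← h] at h2
          exact hNS.no3 (lk_spec huT).1 h2 h1.symm
        have e1 := R.Pr_split (fun ω => ¬ A (φ ω) (br G u) ∧
          (A (φ ω) (br G (lk G u)) ∨ (o (φ ω) u ↔ c ω))) (fun ω => A (φ ω) (br G (lk G u)))
        have e2 : R.Pr (fun ω => (¬ A (φ ω) (br G u) ∧
            (A (φ ω) (br G (lk G u)) ∨ (o (φ ω) u ↔ c ω))) ∧ A (φ ω) (br G (lk G u))) = 1 / 5 := by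
          rw [← hnp _ _ hne, ← hφ (fun ω => ¬ A ω (br G u) ∧ A ω (br G (lk G u)))]
          exact Sp.Pr_congr fun ω => by tauto
        have e3 := R.Pr_split (fun ω => (¬ A (φ ω) (br G u) ∧
            (A (φ ω) (br G (lk G u)) ∨ (o (φ ω) u ↔ c ω))) ∧ ¬ A (φ ω) (br G (lk G u)))
            (fun ω => o (φ ω) u)
        have e4 : R.Pr (fun ω => ((¬ A (φ ω) (br G u) ∧
            (A (φ ω) (br G (lk G u)) ∨ (o (φ ω) u ↔ c ω))) ∧ ¬ A (φ ω) (br G (lk G u))) ∧
            o (φ ω) u) =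
            1 / 2 * S.Pr (fun ω => (¬ A ω (br G u) ∧ ¬ A ω (br G (lk G u))) ∧ o ω u) := by
          rw [← hc (fun ω => (¬ A ω (br G u) ∧ ¬ A ω (br G (lk G u))) ∧ o ω u)]
          exact Sp.Pr_congr fun ω => by tauto
        have e5 : R.Pr (fun ω => ((¬ A (φ ω) (br G u) ∧
            (A (φ ω) (br G (lk G u)) ∨ (o (φ ω) u ↔ c ω))) ∧ ¬ A (φ ω) (br G (lk G u))) ∧
            ¬ o (φ ω) u) =
            1 / 2 * S.Pr (fun ω => (¬ A ω (br G u) ∧ ¬ A ω (br G (lk G u))) ∧ ¬ o ω u) := by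
          have f1 := R.Pr_split (fun ω => (¬ A (φ ω) (br G u) ∧ ¬ A (φ ω) (br G (lk G u))) ∧
            ¬ o (φ ω) u) c
          have f2 := hc (fun ω => (¬ A ω (br G u) ∧ ¬ A ω (br G (lk G u))) ∧ ¬ o ω u)
          rw [hφ (fun ω => (¬ A ω (br G u) ∧ ¬ A ω (br G (lk G u))) ∧ ¬ o ω u), f2] at f1
          have f3 : R.Pr (fun ω => ((¬ A (φ ω) (br G u) ∧
            (A (φ ω) (br G (lk G u)) ∨ (o (φ ω) u ↔ c ω))) ∧ ¬ A (φ ω) (br G (lk G u))) ∧
            ¬ o (φ ω) u) = R.Pr (fun ω => ((¬ A (φ ω) (br G u) ∧ ¬ A (φ ω) (br G (lk G u))) ∧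
            ¬ o (φ ω) u) ∧ ¬ c ω) := Sp.Pr_congr fun ω => by tauto
          rw [f3]
          linarith
        have e6 := S.Pr_split (fun ω => ¬ A ω (br G u) ∧ ¬ A ω (br G (lk G u))) (fun ω => o ω u)
        rw [hnn _ _ hne] at e6
        rw [e1, e2, e3, e4, e5]
        linarith
      · rw [Sp.Pr_congr fun ω => hzM ω u hu2 huT]
        obtain ⟨a, b, hab, ha, hb⟩ := two_le_dg.1 hu2.ge
        rw [← hnn a b hab, ← hφ (fun ω => ¬ A ω a ∧ ¬ A ω b)]
        exact Sp.Pr_mono fun ω h => ⟨h a ha, h b hb⟩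
    · rw [Sp.Pr_congr fun ω => hzW ω u hu2, hφ (fun ω => A ω u)]
      exact (hA1 u).le
  · by_cases hu2 : dg G u = 2
    · by_cases huT : isT G u
      · obtain ⟨-, h1, h2, -⟩ := br_spec hp3 huT
        by_cases e1 : A (φ ω) (br G u)
        · exact Or.inr ⟨br G u, h1, (hzW ω _ h2).2 e1⟩
        · by_cases e2 : A (φ ω) (br G (lk G u))
          · exact Or.inl ((hzT ω u huT).2 ⟨e1, Or.inl e2⟩)
          · have huT' : u ∈ T (φ ω) := (hTmem _ u).2 ⟨huT, e1, e2⟩
            have e3 := ho1 (φ ω) u huT'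
            by_cases e4 : o (φ ω) u ↔ c ω
            · exact Or.inl ((hzT ω u huT).2 ⟨e1, Or.inr e4⟩)
            · refine Or.inr ⟨lk G u, (lk_spec huT).1, (hzT ω _ (lk_isT huT)).2 ⟨e2, Or.inr ?_⟩⟩
              rw [e3]
              tauto
      · by_cases e1 : ∃ w, G.Adj u w ∧ A (φ ω) w
        · obtain ⟨w, hw, hw'⟩ := e1
          have hw2 : dg G w ≠ 2 := fun h => huT ⟨hu2, w, hw, h⟩
          exact Or.inr ⟨w, hw, (hzW ω w hw2).2 hw'⟩
        · push Not at e1
          exact Or.inl ((hzM ω u hu2 huT).2 e1)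
    · have hu3 : 3 ≤ dg G u := by omega
      by_cases e1 : A (φ ω) u
      · exact Or.inl ((hzW ω u hu2).2 e1)
      · obtain ⟨a, b, hab, ha, hb, ha2, hb2⟩ := hs u hu3
        have hlink : ∀ y, G.Adj u y → dg G y = 2 := by
          intro y hy
          have e1 := one_le_dg hy.symm
          have e2 := hleaf y
          have e3 : ¬ 3 ≤ dg G y := fun h => hbb u y hu3 h hy
          omega
        have hT : ∀ y, G.Adj u y → dg G (oth G y u) = 2 → isT G y ∧ br G y = u := by
          intro y hy hy2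
          obtain ⟨h1, h2, h3⟩ := oth_spec (hlink y hy) hy.symm
          have h4 : isT G y := ⟨hlink y hy, _, h2, hy2⟩
          exact ⟨h4, (br_unique hp3 h4 hy.symm hu2).symm⟩
        obtain ⟨haT, hau⟩ := hT a ha ha2
        obtain ⟨hbT, hbu⟩ := hT b hb hb2
        by_cases e2 : A (φ ω) (br G (lk G a))
        · exact Or.inr ⟨a, ha, (hzT ω a haT).2 ⟨by rw [hau]; exact e1, Or.inl e2⟩⟩
        · by_cases e3 : A (φ ω) (br G (lk G b))
          · exact Or.inr ⟨b, hb, (hzT ω b hbT).2 ⟨by rw [hbu]; exact e1, Or.inl e3⟩⟩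
          · have ha' : a ∈ T (φ ω) := (hTmem _ a).2 ⟨haT, by rw [hau]; exact e1, e2⟩
            have hb' : b ∈ T (φ ω) := (hTmem _ b).2 ⟨hbT, by rw [hbu]; exact e1, e3⟩
            obtain ⟨s1, g1, s2, g2, g3, g4, g5, g6⟩ := ho2 (φ ω) a ha' b hb' hab
              (hau.trans hbu.symm)
            rw [hau] at g3 g4
            have k1 := ((hTmem _ s1).1 g1).1
            have k2 := ((hTmem _ s2).1 g2).1
            by_cases e4 : c ω
            · refine Or.inr ⟨s1, ?_, (hzT ω s1 k1).2 ⟨by rw [g3]; exact e1, Or.inr ⟨fun _ => e4,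
                fun _ => g5⟩⟩⟩
              have := (br_spec hp3 k1).2.1
              rw [g3] at this
              exact this.symm
            · refine Or.inr ⟨s2, ?_, (hzT ω s2 k2).2 ⟨by rw [g4]; exact e1, Or.inr
                ⟨fun h => absurd h g6, fun h => absurd h e4⟩⟩⟩
              have := (br_spec hp3 k2).2.1
              rw [g4] at this
              exact this.symm

end Pool.Agent.H49.Fdom
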