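import Pool.Agent.H49.Fdom.Defs
import Pool.Agent.H49.Fdom.Lower.CaseB

/-!
The lower bound: every finite graph of minimum degree at least two and girth at least nine has
fractional domatic number at least `5 / 2`.
-/

set_option autoImplicit false
set_option linter.unusedSectionVars false

namespace Pool.Agent.H49.Fdom

open Finset

variable {V : Type} [Fintype V]

theorem good_step {G : SimpleGraph V} (hNS : NS 8 G)
    (ih : ∀ G' : SimpleGraph V, G' < G → Good G') : Good G := by
  classical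
  by_cases hleaf : ∃ p, dg G p = 1
  · obtain ⟨p, hp⟩ := hleaf
    have h1 : (G.neighborSet p).Nonempty := by
      rw [← Set.ncard_pos (Set.toFinite _)]
      unfold dg at hp
      omega
    obtain ⟨y, hy⟩ := h1
    exact step_leaf ih hp hy
  push Not at hleaf
  by_cases hbb : ∃ a b, 3 ≤ dg G a ∧ 3 ≤ dg G b ∧ G.Adj a b
  · obtain ⟨a, b, ha, hb, hab⟩ := hbb
    exact step_edge hleaf ih hab ha hb
  have hbb' : ∀ a b, 3 ≤ dg G a → 3 ≤ dg G b → ¬ G.Adj a b :=
    fun a b ha hb hab => hbb ⟨a, b, ha, hb, hab⟩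
  by_cases hp3 : ∃ c, LinkPath G 3 c
  · exact step_path hNS hleaf ih hp3
  by_cases hs : ∀ v, 3 ≤ dg G v → ∃ a b, a ≠ b ∧ G.Adj v a ∧ G.Adj v b ∧ dg G (oth G a v) = 2 ∧
      dg G (oth G b v) = 2
  · exact step_final hNS hleaf hbb' hp3 hs
  push Not at hs
  obtain ⟨v, hv, hs⟩ := hs
  have hlink : ∀ y, G.Adj v y → dg G y = 2 := by
    intro y hy
    have e1 := one_le_dg hy.symm
    have e2 := hleaf y
    have e3 : ¬ 3 ≤ dg G y := fun h => hbb' v y hv h hy
    omega
  have hoth : ∀ y, G.Adj v y → dg G (oth G y v) ≠ 2 → 3 ≤ dg G (oth G y v) := by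
    intro y hy h
    have e1 := one_le_dg (oth_spec (hlink y hy) hy.symm).2.1.symm
    have e2 := hleaf (oth G y v)
    omega
  by_cases hex : ∃ a, G.Adj v a ∧ dg G (oth G a v) = 2
  · obtain ⟨a, ha, ha2⟩ := hex
    exact step_star1 hNS hleaf hbb' hp3 ih hv ha ha2 fun y hy hya =>
      hoth y hy (hs a y (Ne.symm hya) ha hy ha2)
  · push Not at hex
    exact step_star hNS hleaf hbb' ih hv fun y hy => hoth y hy (hex y hy)

theorem good_of_NS : ∀ G : SimpleGraph V, NS 8 G → Good G := by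
  intro G
  induction G using WellFoundedLT.induction with
  | ind G ih => exact fun hNS => good_step hNS fun G' hG' => ih G' hG' (hNS.mono hG'.le)

/-- the set in the definition of `fdom` is bounded -/
theorem bddAbove_fdom [Nonempty V] (G : SimpleGraph V) :
    BddAbove {x : ℝ | ∃ a b : ℕ, 1 ≤ b ∧ b ≤ a ∧
      (∃ φ : V → Finset (Fin a), IsDominatingColouring G a b φ) ∧ x = (a : ℝ) / b} := by
  classical
  refine ⟨(Fintype.card V : ℝ), ?_⟩
  rintro x ⟨a, b, hb, -, ⟨φ, h1, h2⟩, rfl⟩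
  have hcov : (Finset.univ : Finset (Fin a)) ⊆ Finset.univ.biUnion φ := by
    intro i _
    obtain ⟨v⟩ : Nonempty V := inferInstance
    rcases h2 i v with h | ⟨u, h, -⟩
    · exact Finset.mem_biUnion.2 ⟨v, Finset.mem_univ _, h⟩
    · exact Finset.mem_biUnion.2 ⟨u, Finset.mem_univ _, h⟩
  have hle : a ≤ Fintype.card V * b := by
    calc a = (Finset.univ : Finset (Fin a)).card := by simp
      _ ≤ (Finset.univ.biUnion φ).card := Finset.card_le_card hcov
      _ ≤ ∑ v : V, (φ v).card := Finset.card_biUnion_le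
      _ = Fintype.card V * b := by simp [h1]
  have hb' : (0 : ℝ) < b := by exact_mod_cast hb
  rw [div_le_iff₀ hb']
  exact_mod_cast hle

/-- from a random set to colourings -/
theorem fdom_ge_of_good [Nonempty V] {G : SimpleGraph V} (hG : Good G)
    (hdeg : ∀ v, 2 ≤ dg G v) : 5 / 2 ≤ fdom G := by
  classical
  obtain ⟨S, x, h1, h2, -⟩ := hG
  have hS : Nonempty S.Ω := by
    by_contra hcon
    rw [not_nonempty_iff] at hcon
    have := S.sum_one
    simp at this
  refine le_of_forall_pos_sub_le fun ε hε => ?_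
  obtain ⟨M0, hM0⟩ := exists_nat_gt ((Fintype.card S.Ω : ℝ) / (2 * ε))
  -- choose `M` large
  set M : ℕ := M0 + Fintype.card S.Ω + 1 with hM
  set N : ℕ := 5 * M with hN
  let m : S.Ω → ℕ := fun ω => ⌊(N : ℝ) * S.p ω⌋₊
  have hm1 : ∀ ω, (m ω : ℝ) ≤ N * S.p ω := fun ω =>
    Nat.floor_le (mul_nonneg (Nat.cast_nonneg _) (S.pos ω).le)
  have hm2 : ∀ ω, (N : ℝ) * S.p ω - 1 ≤ m ω := fun ω => (Nat.sub_one_lt_floor _).le
  set a : ℕ := ∑ ω, m ω with ha
  have haR : (a : ℝ) = ∑ ω, (m ω : ℝ) := by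
    rw [ha]
    push_cast
    rfl
  have ha1 : (N : ℝ) - Fintype.card S.Ω ≤ a := by
    rw [haR]
    have e1 : ∑ ω, ((N : ℝ) * S.p ω - 1) ≤ ∑ ω, (m ω : ℝ) := Finset.sum_le_sum fun ω _ => hm2 ω
    rw [Finset.sum_sub_distrib, ← Finset.mul_sum, S.sum_one] at e1
    simpa using e1
  let C := Σ ω : S.Ω, Fin (m ω)
  have hcard : Fintype.card C = a := by
    simp only [C, Fintype.card_sigma, Fintype.card_fin, ha]
  let e : C ≃ Fin a := Fintype.equivFinOfCardEq hcard
  let φ0 : V → Finset (Fin a) := fun v => Finset.univ.filter fun i => x (e.symm i).1 v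
  have hφ0 : ∀ v, (φ0 v).card ≤ 2 * M := by
    intro v
    have e1 : (φ0 v).card = ∑ ω, if x ω v then m ω else 0 := by
      have e2 : (φ0 v).card = (Finset.univ.filter fun z : C => x z.1 v).card := by
        refine Finset.card_bij (fun i _ => e.symm i) ?_ ?_ ?_
        · intro i hi
          simpa [φ0] using hi
        · intro i _ j _ hij
          exact e.symm.injective hij
        · intro z hz
          refine ⟨e z, ?_, by simp⟩
          simpa [φ0] using hz
      rw [e2, Finset.card_filter, Fintype.sum_sigma]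
      refine Finset.sum_congr rfl fun ω _ => ?_
      by_cases h : x ω v <;> simp [h]
    have e3 : ((φ0 v).card : ℝ) ≤ 2 * M := by
      rw [e1]
      push_cast
      calc ∑ ω, (if x ω v then (m ω : ℝ) else 0) ≤ ∑ ω, (N : ℝ) * (if x ω v then S.p ω else 0) := by
            refine Finset.sum_le_sum fun ω _ => ?_
            by_cases h : x ω v
            · simpa [h] using hm1 ω
            · simp [h]
        _ = N * S.Pr (fun ω => x ω v) := by
            rw [← Finset.mul_sum]
            rfl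
        _ = 2 * M := by
            rw [h1 v, hN]
            push_cast
            ring
    exact_mod_cast e3
  have hMa : 2 * M ≤ a := by
    have e1 : ((2 * M : ℕ) : ℝ) ≤ a := by
      refine le_trans ?_ ha1
      rw [hN, hM]
      push_cast
      have : (0 : ℝ) ≤ M0 := Nat.cast_nonneg _
      have : (0 : ℝ) ≤ Fintype.card S.Ω := Nat.cast_nonneg _
      linarith
    exact_mod_cast e1
  have hsup : ∀ v, ∃ s : Finset (Fin a), φ0 v ⊆ s ∧ s.card = 2 * M := by
    intro v
    obtain ⟨s, hs1, -, hs2⟩ := Finset.exists_subsuperset_card_eq (Finset.subset_univ (φ0 v))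
      (hφ0 v) (by simpa using hMa)
    exact ⟨s, hs1, hs2⟩
  choose φ hφ1 hφ2 using hsup
  have hmem : (a : ℝ) / ((2 * M : ℕ) : ℝ) ∈ {x : ℝ | ∃ a b : ℕ, 1 ≤ b ∧ b ≤ a ∧
      (∃ φ : V → Finset (Fin a), IsDominatingColouring G a b φ) ∧ x = (a : ℝ) / b} := by
    refine ⟨a, 2 * M, by omega, hMa, ⟨φ, hφ2, fun i v => ?_⟩, rfl⟩
    rcases h2 (e.symm i).1 v (hdeg v) with h | ⟨u, hu, h⟩
    · left
      exact hφ1 v (by simpa [φ0] using h)
    · right
      refine ⟨u, ?_, hu⟩
      exact hφ1 u (by simpa [φ0] using h)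
  have hle : (a : ℝ) / ((2 * M : ℕ) : ℝ) ≤ fdom G := le_csSup (bddAbove_fdom G) hmem
  refine le_trans ?_ hle
  have hM' : (0 : ℝ) < ((2 * M : ℕ) : ℝ) := by
    have : 0 < 2 * M := by omega
    exact_mod_cast this
  rw [le_div_iff₀ hM']
  refine le_trans ?_ ha1
  have e1 : (Fintype.card S.Ω : ℝ) ≤ 2 * ε * M := by
    have e2 : (Fintype.card S.Ω : ℝ) / (2 * ε) * (2 * ε) ≤ M0 * (2 * ε) :=
      mul_le_mul_of_nonneg_right hM0.le (by linarith)
    rw [div_mul_cancel₀ _ (by linarith)] at e2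
    have e3 : (M0 : ℝ) ≤ M := by
      rw [hM]
      push_cast
      have : (0 : ℝ) ≤ Fintype.card S.Ω := Nat.cast_nonneg _
      linarith
    nlinarith
  rw [hN]
  push_cast
  nlinarith

/-- **Lower bound.** Minimum degree at least two and girth at least nine force `fdom ≥ 5 / 2`. -/
theorem lower [Nonempty V] {G : SimpleGraph V} (hdeg : ∀ v, 2 ≤ dg G v)
    (hg : ((9 : ℕ) : ℕ∞) ≤ G.egirth) : 5 / 2 ≤ fdom G :=
  fdom_ge_of_good (good_of_NS G (NS_of_egirth hg)) hdeg

theorem two_le_dg_of_minDegree {G : SimpleGraph V} [DecidableRel G.Adj] (h : 2 ≤ G.minDegree)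
    (v : V) : 2 ≤ dg G v := by
  have h1 := h.trans (G.minDegree_le_degree v)
  rw [← SimpleGraph.card_neighborFinset_eq_degree] at h1
  unfold dg
  rwa [Set.ncard_eq_toFinset_card', ← SimpleGraph.neighborFinset_def]

end Pool.Agent.H49.Fdom
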