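import Pool.Agent.H49.Fdom.Lower.Path

/-!
Removing a branch vertex at most one of whose neighbours lies on a long thread.
-/

set_option autoImplicit false
set_option linter.unusedSectionVars false

namespace Pool.Agent.H49.Fdom

open Finset

variable {V : Type} [Fintype V]

theorem NS.no3 {G : SimpleGraph V} (h : NS 8 G) {a b c : V} (hab : G.Adj a b) (hbc : G.Adj b c)
    (hca : G.Adj c a) : False := by
  classical
  obtain ⟨v, hv, hu⟩ := h {a, b, c} ⟨a, by simp⟩ (le_trans Finset.card_le_three (by norm_num))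
  simp only [Finset.mem_insert, Finset.mem_singleton] at hv
  rcases hv with rfl | rfl | rfl
  · exact hbc.ne (hu b (by simp) c (by simp) hab hca.symm)
  · exact hca.ne' (hu a (by simp) c (by simp) hab.symm hbc)
  · exact hab.ne (hu a (by simp) b (by simp) hca hbc.symm)

theorem NS.no4 {G : SimpleGraph V} (h : NS 8 G) {a b c d : V} (hab : G.Adj a b) (hbc : G.Adj b c)
    (hcd : G.Adj c d) (hda : G.Adj d a) (h1 : a ≠ c) (h2 : b ≠ d) : False := by
  classical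
  obtain ⟨v, hv, hu⟩ := h {a, b, c, d} ⟨a, by simp⟩ (le_trans Finset.card_le_four (by norm_num))
  simp only [Finset.mem_insert, Finset.mem_singleton] at hv
  rcases hv with rfl | rfl | rfl | rfl
  · exact h2 (hu b (by simp) d (by simp) hab hda.symm)
  · exact h1 (hu a (by simp) c (by simp) hab.symm hbc)
  · exact h2 (hu b (by simp) d (by simp) hbc.symm hcd)
  · exact h1 (hu a (by simp) c (by simp) hda hcd.symm)

theorem NS.no5 {G : SimpleGraph V} (h : NS 8 G) {a b c d e : V} (hab : G.Adj a b)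
    (hbc : G.Adj b c) (hcd : G.Adj c d) (hde : G.Adj d e) (hea : G.Adj e a) (h1 : a ≠ c)
    (h2 : b ≠ d) (h3 : c ≠ e) (h4 : d ≠ a) (h5 : e ≠ b) : False := by
  classical
  obtain ⟨v, hv, hu⟩ := h {a, b, c, d, e} ⟨a, by simp⟩
    (le_trans Finset.card_le_five (by norm_num))
  simp only [Finset.mem_insert, Finset.mem_singleton] at hv
  rcases hv with rfl | rfl | rfl | rfl | rfl
  · exact h5 (hu e (by simp) b (by simp) hea.symm hab)
  · exact h1 (hu a (by simp) c (by simp) hab.symm hbc)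
  · exact h2 (hu b (by simp) d (by simp) hbc.symm hcd)
  · exact h3 (hu c (by simp) e (by simp) hcd.symm hde)
  · exact h4 (hu d (by simp) a (by simp) hde.symm hea)

open Classical in
/-- the other neighbour of `y` -/
noncomputable def oth (G : SimpleGraph V) (y v : V) : V :=
  if h : ∃ b, b ≠ v ∧ G.Adj y b then h.choose else v

theorem oth_spec {G : SimpleGraph V} {y v : V} (hy : dg G y = 2) (hyv : G.Adj y v) :
    oth G y v ≠ v ∧ G.Adj y (oth G y v) ∧ ∀ w, G.Adj y w ↔ w = v ∨ w = oth G y v := by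
  have h : ∃ b, b ≠ v ∧ G.Adj y b := exists_other hy.ge hyv
  have h1 : oth G y v = h.choose := by
    unfold oth
    rw [dif_pos h]
  have h2 := h.choose_spec
  rw [← h1] at h2
  exact ⟨h2.1, h2.2, nbrs_of_dg_two hy hyv h2.2 (Ne.symm h2.1)⟩

/-- a coin guided by the event `X` -/
theorem Sp.guided (S : Sp) (X : S.Ω → Prop) :
    ∃ (R : Sp) (φ : R.Ω → S.Ω) (b : R.Ω → Prop),
      (∀ A : S.Ω → Prop, R.Pr (fun ω => A (φ ω)) = S.Pr A) ∧
      (∀ A : S.Ω → Prop, R.Pr (fun ω => A (φ ω) ∧ b ω) =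
        1 / 2 * S.Pr (fun ω => A ω ∧ X ω) + 1 / 3 * S.Pr (fun ω => A ω ∧ ¬ X ω)) := by
  obtain ⟨R1, φ1, c1, h1, h1'⟩ := S.coin (1 / 2) (by norm_num) (by norm_num)
  obtain ⟨R2, φ2, c2, h2, h2'⟩ := R1.coin (1 / 3) (by norm_num) (by norm_num)
  refine ⟨R2, fun ω => φ1 (φ2 ω),
    fun ω => (X (φ1 (φ2 ω)) ∧ c1 (φ2 ω)) ∨ (¬ X (φ1 (φ2 ω)) ∧ c2 ω), fun A => ?_, fun A => ?_⟩
  · rw [h2 (fun ω => A (φ1 ω)), h1]
  · have e1 := R2.Pr_split (fun ω => A (φ1 (φ2 ω)) ∧
      ((X (φ1 (φ2 ω)) ∧ c1 (φ2 ω)) ∨ (¬ X (φ1 (φ2 ω)) ∧ c2 ω))) (fun ω => X (φ1 (φ2 ω)))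
    have e2 : R2.Pr (fun ω => (A (φ1 (φ2 ω)) ∧
        ((X (φ1 (φ2 ω)) ∧ c1 (φ2 ω)) ∨ (¬ X (φ1 (φ2 ω)) ∧ c2 ω))) ∧ X (φ1 (φ2 ω))) =
        1 / 2 * S.Pr (fun ω => A ω ∧ X ω) := by
      rw [← h1' (fun ω => A ω ∧ X ω), ← h2 (fun ω => (A (φ1 ω) ∧ X (φ1 ω)) ∧ c1 ω)]
      exact Sp.Pr_congr fun ω => by tauto
    have e3 : R2.Pr (fun ω => (A (φ1 (φ2 ω)) ∧
        ((X (φ1 (φ2 ω)) ∧ c1 (φ2 ω)) ∨ (¬ X (φ1 (φ2 ω)) ∧ c2 ω))) ∧ ¬ X (φ1 (φ2 ω))) =
        1 / 3 * S.Pr (fun ω => A ω ∧ ¬ X ω) := by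
      rw [← h1 (fun ω => A ω ∧ ¬ X ω), ← h2' (fun ω => A (φ1 ω) ∧ ¬ X (φ1 ω))]
      exact Sp.Pr_congr fun ω => by tauto
    rw [e1, e2, e3]

/-- a uniform choice among three -/
theorem Sp.pick3 (S : Sp) :
    ∃ (R : Sp) (φ : R.Ω → S.Ω) (b : R.Ω → Fin 3 → Prop),
      (∀ A : S.Ω → Prop, R.Pr (fun ω => A (φ ω)) = S.Pr A) ∧
      (∀ (A : S.Ω → Prop) (i : Fin 3), R.Pr (fun ω => A (φ ω) ∧ b ω i) = 1 / 3 * S.Pr A) ∧
      ∀ ω, ∃ i, b ω i := by
  obtain ⟨R1, φ1, c1, h1, h1'⟩ := S.coin (1 / 3) (by norm_num) (by norm_num)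
  obtain ⟨R2, φ2, c2, h2, h2'⟩ := R1.coin (1 / 2) (by norm_num) (by norm_num)
  have key : ∀ A : S.Ω → Prop, R1.Pr (fun ω => A (φ1 ω) ∧ ¬ c1 ω) = 2 / 3 * S.Pr A := by
    intro A
    have e1 := R1.Pr_split (fun ω => A (φ1 ω)) c1
    rw [h1, h1'] at e1
    linarith
  refine ⟨R2, fun ω => φ1 (φ2 ω), fun ω i => if i = 0 then c1 (φ2 ω) else if i = 1 then
    (¬ c1 (φ2 ω) ∧ c2 ω) else (¬ c1 (φ2 ω) ∧ ¬ c2 ω), fun A => ?_, fun A i => ?_, fun ω => ?_⟩
  · rw [h2 (fun ω => A (φ1 ω)), h1]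
  · have hi : i = 0 ∨ i = 1 ∨ i = 2 := by
      fin_cases i <;> simp
    rcases hi with rfl | rfl | rfl
    · simp only [if_true]
      rw [h2 (fun ω => A (φ1 ω) ∧ c1 ω), h1']
    · simp only [if_true, show (1 : Fin 3) ≠ 0 by decide, if_false]
      have e1 := h2' (fun ω => A (φ1 ω) ∧ ¬ c1 ω)
      rw [key] at e1
      have e2 : R2.Pr (fun ω => A (φ1 (φ2 ω)) ∧ ¬ c1 (φ2 ω) ∧ c2 ω) =
          R2.Pr (fun ω => (A (φ1 (φ2 ω)) ∧ ¬ c1 (φ2 ω)) ∧ c2 ω) :=
        Sp.Pr_congr fun ω => by tauto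
      rw [e2, e1]
      ring
    · simp only [show (2 : Fin 3) ≠ 0 by decide, show (2 : Fin 3) ≠ 1 by decide, if_false]
      have e1 := h2' (fun ω => A (φ1 ω) ∧ ¬ c1 ω)
      rw [key] at e1
      have e2 : R2.Pr (fun ω => A (φ1 (φ2 ω)) ∧ ¬ c1 (φ2 ω) ∧ ¬ c2 ω) =
          R2.Pr (fun ω => (A (φ1 (φ2 ω)) ∧ ¬ c1 (φ2 ω)) ∧ ¬ c2 ω) :=
        Sp.Pr_congr fun ω => by tauto
      have e3 := R2.Pr_split (fun ω => A (φ1 (φ2 ω)) ∧ ¬ c1 (φ2 ω)) c2
      rw [h2 (fun ω => A (φ1 ω) ∧ ¬ c1 ω), key, e1] at e3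
      rw [e2]
      linarith
  · by_cases h3 : c1 (φ2 ω)
    · exact ⟨0, by simp [h3]⟩
    · by_cases h4 : c2 ω
      · exact ⟨1, by simp [h3, h4]⟩
      · exact ⟨2, by simp [h3, h4]⟩

/-- a branch vertex all of whose neighbours have another branch neighbour -/
theorem step_star {G : SimpleGraph V} (hNS : NS 8 G) (hleaf : ∀ v, dg G v ≠ 1)
    (hbb : ∀ a b, 3 ≤ dg G a → 3 ≤ dg G b → ¬ G.Adj a b)
    (ih : ∀ G' : SimpleGraph V, G' < G → Good G') {v : V} (hv : 3 ≤ dg G v)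
    (hM : ∀ y, G.Adj v y → 3 ≤ dg G (oth G y v)) : Good G := by
  classical
  have hlink : ∀ y, G.Adj v y → dg G y = 2 := by
    intro y hy
    have e1 := one_le_dg hy.symm
    have e2 := hleaf y
    have e3 : ¬ 3 ≤ dg G y := fun h => hbb v y hv h hy
    omega
  obtain ⟨y1, y2, y3, h12, h13, h23, hy1, hy2, hy3⟩ := three_le_dg.1 hv
  let Y : Fin 3 → V := ![y1, y2, y3]
  have hYinj : ∀ i j, Y i = Y j → i = j := by
    intro i j hij
    fin_cases i <;> fin_cases j <;> simp [Y] at hij ⊢ <;>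
      first
        | exact h12 hij
        | exact h13 hij
        | exact h23 hij
        | exact h12 hij.symm
        | exact h13 hij.symm
        | exact h23 hij.symm
  have hYadj : ∀ i, G.Adj v (Y i) := by
    intro i
    fin_cases i <;> simp [Y, hy1, hy2, hy3]
  let X : Set V := {z | z = v ∨ G.Adj v z}
  have hvX : v ∈ X := Or.inl rfl
  have hyX : ∀ y, G.Adj v y → y ∈ X := fun y hy => Or.inr hy
  have hwX : ∀ y, G.Adj v y → oth G y v ∉ X := by
    intro y hy hw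
    have e1 := hM y hy
    rcases hw with hw | hw
    · exact (oth_spec (hlink y hy) hy.symm).1 hw
    · have := hlink _ hw
      omega
  have hclass : ∀ u, u ∉ X → ∀ t ∈ X, G.Adj u t → G.Adj v t ∧ u = oth G t v := by
    intro u hu t ht hut
    rcases ht with rfl | ht
    · exact absurd (Or.inr hut.symm) hu
    · refine ⟨ht, ?_⟩
      rcases ((oth_spec (hlink t ht) ht.symm).2.2 u).1 hut.symm with h | h
      · exact absurd (Or.inl h) hu
      · exact h
  have hdeg : ∀ u, u ∉ X → 2 ≤ dg G u → 2 ≤ dg (delX G X) u := by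
    intro u hu hdu
    by_cases hex : ∃ t ∈ X, G.Adj u t
    · obtain ⟨t, ht, hut⟩ := hex
      obtain ⟨e1, e2⟩ := hclass u hu t ht hut
      refine two_le_dg_delX' (w := t) hu (by rw [e2]; exact hM t e1) fun t' ht' hut' => ?_
      obtain ⟨e3, e4⟩ := hclass u hu t' ht' hut'
      by_contra hne
      exact hNS.no4 e1 hut.symm hut' e3.symm (fun h => hu (h ▸ hvX)) (Ne.symm hne)
    · push Not at hex
      exact two_le_dg_delX hu hdu hex
  obtain ⟨S, x, h1, h2, -⟩ := ih _ (delX_lt (X := X) hvX hy1)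
  let all : S.Ω → Prop := fun ω => ∀ y, G.Adj v y → x ω (oth G y v)
  set q := S.Pr all with hq
  have hq0 : 0 ≤ q := S.Pr_nonneg _
  have hq1 : q ≤ 2 / 5 := by
    rw [← h1 (oth G y1 v)]
    exact Sp.Pr_mono fun ω h => h y1 hy1
  have hα1 : 2 / 5 / (1 - q) ≤ 1 := by
    rw [div_le_one (by linarith)]
    linarith
  obtain ⟨R1, φ1, c, g1, g1'⟩ := S.coin (2 / 5 / (1 - q))
    (div_nonneg (by norm_num) (by linarith)) hα1
  obtain ⟨R, φ2, pick, g2, g2', g3⟩ := R1.pick3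
  let xv : R.Ω → Prop := fun ω => ¬ all (φ1 (φ2 ω)) ∧ c (φ2 ω)
  let z : R.Ω → V → Prop := fun ω u =>
    if u = v then xv ω
    else if G.Adj v u then
      ((¬ xv ω ∧ ¬ x (φ1 (φ2 ω)) (oth G u v)) ∨ (all (φ1 (φ2 ω)) ∧ ∃ i, Y i = u ∧ pick ω i))
    else x (φ1 (φ2 ω)) u
  have hzv : ∀ ω, z ω v ↔ xv ω := fun ω => by simp [z]
  have hzy : ∀ ω y, G.Adj v y → (z ω y ↔ ((¬ xv ω ∧ ¬ x (φ1 (φ2 ω)) (oth G y v)) ∨
      (all (φ1 (φ2 ω)) ∧ ∃ i, Y i = y ∧ pick ω i))) := fun ω y hy => by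
    simp only [z, if_neg hy.ne', if_pos hy]
  have hzo : ∀ ω u, u ∉ X → (z ω u ↔ x (φ1 (φ2 ω)) u) := fun ω u hu => by
    have e1 : u ≠ v := fun h => hu (Or.inl h)
    have e2 : ¬ G.Adj v u := fun h => hu (Or.inr h)
    simp only [z, if_neg e1, if_neg e2]
  have hφ : ∀ A : S.Ω → Prop, R.Pr (fun ω => A (φ1 (φ2 ω))) = S.Pr A := fun A => by
    rw [g2 (fun ω => A (φ1 ω)), g1]
  have h1q : 0 < 1 - q := by linarith
  refine good_of_le' hleaf R z (fun u => ?_) (fun ω u hu => ?_)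
  · by_cases huv : u = v
    · rw [huv, Sp.Pr_congr hzv]
      simp only [xv]
      rw [g2 (fun ω => ¬ all (φ1 ω) ∧ c ω), g1' (fun ω => ¬ all ω), S.Pr_not, ← hq,
        div_mul_cancel₀ _ h1q.ne']
    · by_cases huy : G.Adj v u
      · rw [Sp.Pr_congr fun ω => hzy ω u huy]
        refine le_trans (R.Pr_or_le _ _) ?_
        -- first part
        have e1 : R.Pr (fun ω => ¬ xv ω ∧ ¬ x (φ1 (φ2 ω)) (oth G u v)) =
            (1 - 2 / 5 / (1 - q)) * (3 / 5) := by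
          have e2 : R.Pr (fun ω => ¬ xv ω ∧ ¬ x (φ1 (φ2 ω)) (oth G u v)) =
              R.Pr (fun ω => ¬ x (φ1 (φ2 ω)) (oth G u v) ∧ ¬ c (φ2 ω)) := by
            refine Sp.Pr_congr fun ω => ?_
            constructor
            · rintro ⟨e3, e4⟩
              refine ⟨e4, fun e5 => e3 ⟨fun e6 => e4 (e6 u huy), e5⟩⟩
            · rintro ⟨e3, e4⟩
              exact ⟨fun e5 => e4 e5.2, e3⟩
          have e3 := R1.Pr_split (fun ω => ¬ x (φ1 ω) (oth G u v)) c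
          rw [g1 (fun ω => ¬ x ω (oth G u v)), g1' (fun ω => ¬ x ω (oth G u v)), S.Pr_not,
            h1] at e3
          rw [e2, g2 (fun ω => ¬ x (φ1 ω) (oth G u v) ∧ ¬ c ω)]
          linarith
        have e2 : R.Pr (fun ω => all (φ1 (φ2 ω)) ∧ ∃ i, Y i = u ∧ pick ω i) ≤ 1 / 3 * q := by
          by_cases hex : ∃ i, Y i = u
          · obtain ⟨i, hi⟩ := hex
            have e3 := g2' (fun ω => all (φ1 ω)) i
            rw [g1, ← hq] at e3
            rw [← e3]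
            refine Sp.Pr_mono fun ω hω => ⟨hω.1, ?_⟩
            obtain ⟨j, hj, hj'⟩ := hω.2
            have : j = i := hYinj j i (hj.trans hi.symm)
            rw [← this]
            exact hj'
          · push Not at hex
            have e3 : R.Pr (fun ω => all (φ1 (φ2 ω)) ∧ ∃ i, Y i = u ∧ pick ω i) =
                R.Pr (fun _ => False) := by
              refine Sp.Pr_congr fun ω => ?_
              constructor
              · rintro ⟨-, i, hi, -⟩
                exact hex i hi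
              · exact False.elim
            rw [e3, R.Pr_false]
            linarith
        have e4 : (1 - 2 / 5 / (1 - q)) * (3 / 5) + 1 / 3 * q ≤ 2 / 5 := by
          have e5 : 2 / 5 / (1 - q) * (1 - q) = 2 / 5 := div_mul_cancel₀ _ h1q.ne'
          set α := 2 / 5 / (1 - q)
          by_contra hcon
          push Not at hcon
          have e6 : (2 / 5) * (1 - q) < ((1 - α) * (3 / 5) + 1 / 3 * q) * (1 - q) :=
            mul_lt_mul_of_pos_right hcon h1q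
          have e7 : ((1 - α) * (3 / 5) + 1 / 3 * q) * (1 - q) =
              (3 / 5) * (1 - q) - (3 / 5) * (α * (1 - q)) + 1 / 3 * q * (1 - q) := by ring
          rw [e7, e5] at e6
          nlinarith [sq_nonneg (q - 1 / 5)]
        linarith
      · have huX : u ∉ X := by
          rintro (h | h)
          · exact huv h
          · exact huy h
        rw [Sp.Pr_congr fun ω => hzo ω u huX, hφ (fun ω => x ω u)]
        exact (h1 u).le
  · by_cases huv : u = v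
    · subst huv
      by_cases e1 : xv ω
      · exact Or.inl ((hzv ω).2 e1)
      · by_cases e2 : all (φ1 (φ2 ω))
        · obtain ⟨i, hi⟩ := g3 ω
          exact Or.inr ⟨Y i, hYadj i, (hzy ω _ (hYadj i)).2 (Or.inr ⟨e2, i, rfl, hi⟩)⟩
        · have e3 : ∃ y, G.Adj u y ∧ ¬ x (φ1 (φ2 ω)) (oth G y u) := by
            by_contra hcon
            push Not at hcon
            exact e2 hcon
          obtain ⟨y, hy, hy'⟩ := e3
          exact Or.inr ⟨y, hy, (hzy ω y hy).2 (Or.inl ⟨e1, hy'⟩)⟩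
    · by_cases huy : G.Adj v u
      · by_cases e1 : xv ω
        · exact Or.inr ⟨v, huy.symm, (hzv ω).2 e1⟩
        · by_cases e2 : x (φ1 (φ2 ω)) (oth G u v)
          · exact Or.inr ⟨oth G u v, (oth_spec (hlink u huy) huy.symm).2.1,
              (hzo ω _ (hwX u huy)).2 e2⟩
          · exact Or.inl ((hzy ω u huy).2 (Or.inl ⟨e1, e2⟩))
      · have huX : u ∉ X := by
          rintro (h | h)
          · exact huv h
          · exact huy h
        exact dom_outside (fun w hw h => (hzo ω w hw).2 h) huX (h2 _ u (hdeg u huX hu))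

end Pool.Agent.H49.Fdom
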