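import Pool.Agent.H49.Fdom.Lower.Branch

/-!
Removing a branch vertex exactly one of whose neighbours lies on a long thread.
-/

set_option autoImplicit false
set_option linter.unusedSectionVars false

namespace Pool.Agent.H49.Fdom

open Finset

variable {V : Type} [Fintype V]

/-- no three consecutive vertices of degree two -/
theorem no_three_links {G : SimpleGraph V} (hp3 : ¬ ∃ c, LinkPath G 3 c) {a b c : V}
    (ha : dg G a = 2) (hb : dg G b = 2) (hc : dg G c = 2) (hab : G.Adj a b) (hbc : G.Adj b c)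
    (hac : a ≠ c) : False := by
  refine hp3 ⟨fun i => if i = 0 then a else if i = 1 then b else c, ?_, ?_, ?_⟩
  · intro i hi
    have : i = 0 ∨ i = 1 ∨ i = 2 := by omega
    rcases this with rfl | rfl | rfl
    · simpa using ha
    · simpa using hb
    · simpa using hc
  · intro i hi j hj hij
    have h1 : i = 0 ∨ i = 1 ∨ i = 2 := by omega
    have h2 : j = 0 ∨ j = 1 ∨ j = 2 := by omega
    have e1 := hab.ne
    have e2 := hbc.ne
    rcases h1 with rfl | rfl | rfl <;> rcases h2 with rfl | rfl | rfl <;> simp at hij ⊢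
    · exact e1 hij
    · exact hac hij
    · exact e1 hij.symm
    · exact e2 hij
    · exact hac hij.symm
    · exact e2 hij.symm
  · intro i hi
    have : i = 0 ∨ i = 1 := by omega
    rcases this with rfl | rfl
    · simpa using hab
    · simpa using hbc

/-- a branch vertex `v` with exactly one neighbour `a` whose other neighbour has degree two -/
theorem step_star1 {G : SimpleGraph V} (hNS : NS 8 G) (hleaf : ∀ v, dg G v ≠ 1)
    (hbb : ∀ a b, 3 ≤ dg G a → 3 ≤ dg G b → ¬ G.Adj a b) (hp3 : ¬ ∃ c, LinkPath G 3 c)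
    (ih : ∀ G' : SimpleGraph V, G' < G → Good G') {v : V} (hv : 3 ≤ dg G v) {a : V}
    (ha : G.Adj v a) (hb2 : dg G (oth G a v) = 2)
    (hM : ∀ y, G.Adj v y → y ≠ a → 3 ≤ dg G (oth G y v)) : Good G := by
  classical
  have hlink : ∀ y, G.Adj v y → dg G y = 2 := by
    intro y hy
    have e1 := one_le_dg hy.symm
    have e2 := hleaf y
    have e3 : ¬ 3 ≤ dg G y := fun h => hbb v y hv h hy
    omega
  obtain ⟨y1, y2, h12, hy1a, -, hy1, -⟩ := exists_two_others (a := a) hv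
  obtain ⟨hbv, hab, hanb⟩ := oth_spec (hlink a ha) ha.symm
  set b := oth G a v with hbdef
  obtain ⟨hwa, hbw, hbnb⟩ := oth_spec hb2 hab.symm
  set w := oth G b a with hwdef
  have hw3 : 3 ≤ dg G w := by
    have e1 := one_le_dg hbw.symm
    have e2 := hleaf w
    have e3 : dg G w ≠ 2 := fun h =>
      no_three_links hp3 (hlink a ha) hb2 h hab hbw (Ne.symm hwa)
    omega
  have hwv : w ≠ v := by
    intro h
    exact hNS.no3 ha hab (h ▸ hbw)
  have hvb : ¬ G.Adj v b := by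
    intro h
    rcases (hbnb v).1 h.symm with h1 | h1
    · exact ha.ne h1
    · exact hwv h1.symm
  let X : Set V := {z | z = v ∨ z = b ∨ G.Adj v z}
  have hvX : v ∈ X := Or.inl rfl
  have hbX : b ∈ X := Or.inr (Or.inl rfl)
  have hyX : ∀ y, G.Adj v y → y ∈ X := fun y hy => Or.inr (Or.inr hy)
  have hwX : w ∉ X := by
    rintro (h | h | h)
    · exact hwv h
    · exact hbw.ne h.symm
    · have := hlink w h
      omega
  have hoX : ∀ y, G.Adj v y → y ≠ a → oth G y v ∉ X := by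
    intro y hy hya
    have e1 := hM y hy hya
    rintro (h | h | h)
    · exact (oth_spec (hlink y hy) hy.symm).1 h
    · rw [h] at e1
      omega
    · have := hlink _ h
      omega
  have hclass : ∀ u, u ∉ X → ∀ t ∈ X, G.Adj u t →
      (t = b ∧ u = w) ∨ (G.Adj v t ∧ t ≠ a ∧ u = oth G t v) := by
    intro u hu t ht hut
    rcases ht with rfl | rfl | ht
    · exact absurd (hyX u hut.symm) hu
    · rcases (hbnb u).1 hut.symm with h | h
      · exact absurd (h ▸ hyX a ha) hu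
      · exact Or.inl ⟨rfl, h⟩
    · rcases ((oth_spec (hlink t ht) ht.symm).2.2 u).1 hut.symm with h | h
      · exact absurd (h ▸ hvX) hu
      · refine Or.inr ⟨ht, ?_, h⟩
        rintro rfl
        exact hu (h ▸ hbX)
  have hdeg : ∀ u, u ∉ X → 2 ≤ dg G u → 2 ≤ dg (delX G X) u := by
    intro u hu hdu
    by_cases hex : ∃ t ∈ X, G.Adj u t
    · obtain ⟨t, ht, hut⟩ := hex
      have hu3 : 3 ≤ dg G u := by
        rcases hclass u hu t ht hut with ⟨-, e1⟩ | ⟨e1, e2, e3⟩
        · rw [e1]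
          exact hw3
        · rw [e3]
          exact hM t e1 e2
      refine two_le_dg_delX' (w := t) hu hu3 fun t' ht' hut' => ?_
      by_contra hne
      have huv : u ≠ v := fun h => hu (h ▸ hvX)
      rcases hclass u hu t ht hut with ⟨e1, e2⟩ | ⟨e1, e2, e3⟩ <;>
        rcases hclass u hu t' ht' hut' with ⟨f1, f2⟩ | ⟨f1, f2, f3⟩
      · exact hne (f1.trans e1.symm)
      · -- v, t', u, b, a
        subst e1
        refine hNS.no5 f1 hut'.symm hut hab.symm ha.symm (Ne.symm huv) hne ?_ hbv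
          (Ne.symm f2)
        rintro rfl
        exact hu (hyX _ ha)
      · subst f1
        refine hNS.no5 e1 hut.symm hut' hab.symm ha.symm (Ne.symm huv) (Ne.symm hne) ?_ hbv
          (Ne.symm e2)
        rintro rfl
        exact hu (hyX _ ha)
      · exact hNS.no4 e1 hut.symm hut' f1.symm (Ne.symm huv) (Ne.symm hne)
    · push Not at hex
      exact two_le_dg_delX hu hdu hex
  obtain ⟨S, x, h1, h2, -⟩ := ih _ (delX_lt (X := X) hvX ha)
  obtain ⟨R1, φ1, xv, g1, g1'⟩ := S.guided (fun ω => x ω w)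
  have hxv : R1.Pr xv = 2 / 5 := by
    have e1 := g1' (fun _ => True)
    have e2 : R1.Pr (fun ω => True ∧ xv ω) = R1.Pr xv := Sp.Pr_congr fun ω => by simp
    have e3 : S.Pr (fun ω => True ∧ x ω w) = 2 / 5 := by
      rw [← h1 w]
      exact Sp.Pr_congr fun ω => by simp
    have e4 : S.Pr (fun ω => True ∧ ¬ x ω w) = 3 / 5 := by
      have e5 : S.Pr (fun ω => True ∧ ¬ x ω w) = S.Pr (fun ω => ¬ x ω w) :=
        Sp.Pr_congr fun ω => by simp
      rw [e5, S.Pr_not, h1]
      norm_num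
    rw [e2, e3, e4] at e1
    rw [e1]
    norm_num
  have hxv0 : R1.Pr (fun ω => ¬ x (φ1 ω) w ∧ xv ω) = 1 / 5 := by
    rw [g1' (fun ω => ¬ x ω w)]
    have e1 : S.Pr (fun ω => ¬ x ω w ∧ x ω w) = 0 := by
      rw [← S.Pr_false]
      exact Sp.Pr_congr fun ω => by tauto
    have e2 : S.Pr (fun ω => ¬ x ω w ∧ ¬ x ω w) = 3 / 5 := by
      have e5 : S.Pr (fun ω => ¬ x ω w ∧ ¬ x ω w) = S.Pr (fun ω => ¬ x ω w) :=
        Sp.Pr_congr fun ω => by simp
      rw [e5, S.Pr_not, h1]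
      norm_num
    rw [e1, e2]
    norm_num
  have hxvy : ∀ u, R1.Pr (fun ω => x (φ1 ω) u ∧ xv ω) ≤ 1 / 5 := by
    intro u
    rw [g1' (fun ω => x ω u)]
    have e1 := S.Pr_split (fun ω => x ω u) (fun ω => x ω w)
    rw [h1] at e1
    have e2 := S.Pr_nonneg (fun ω => x ω u ∧ ¬ x ω w)
    linarith
  -- probability that neither `v` nor `u` is chosen
  have hnn : ∀ u, R1.Pr (fun ω => ¬ xv ω ∧ ¬ x (φ1 ω) u) ≤ 2 / 5 ∧
      1 / 5 ≤ R1.Pr (fun ω => ¬ xv ω ∧ ¬ x (φ1 ω) u) := by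
    intro u
    have e1 := R1.Pr_split (fun ω => ¬ xv ω) (fun ω => x (φ1 ω) u)
    have e2 := R1.Pr_split (fun ω => x (φ1 ω) u) xv
    rw [g1 (fun ω => x ω u), h1] at e2
    rw [R1.Pr_not, hxv] at e1
    have e3 : R1.Pr (fun ω => x (φ1 ω) u ∧ ¬ xv ω) = R1.Pr (fun ω => ¬ xv ω ∧ x (φ1 ω) u) :=
      Sp.Pr_congr fun ω => and_comm
    have e4 := hxvy u
    have e5 := R1.Pr_nonneg (fun ω => x (φ1 ω) u ∧ xv ω)
    constructor <;> linarith
  let H : R1.Ω → Prop := fun ω => ¬ xv ω ∧ ∃ y, G.Adj v y ∧ y ≠ a ∧ ¬ x (φ1 ω) (oth G y v)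
  set h := R1.Pr H with hh
  have hh5 : 1 / 5 ≤ h := by
    refine le_trans (hnn (oth G y1 v)).2 ?_
    exact Sp.Pr_mono fun ω hω => ⟨hω.1, y1, hy1, hy1a, hω.2⟩
  obtain ⟨R, φ2, c, g2, g2'⟩ := R1.coin (1 / 5 / h) (div_nonneg (by norm_num) (by linarith))
    (by rw [div_le_one (by linarith)]; exact hh5)
  have hHc : R.Pr (fun ω => H (φ2 ω) ∧ c ω) = 1 / 5 := by
    rw [g2' H, ← hh, div_mul_cancel₀ _ (by linarith)]
  let xb : R.Ω → Prop := fun ω => (¬ x (φ1 (φ2 ω)) w ∧ xv (φ2 ω)) ∨ (H (φ2 ω) ∧ c ω)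
  let xa : R.Ω → Prop := fun ω => ¬ xv (φ2 ω) ∧ ¬ (H (φ2 ω) ∧ c ω)
  have hxb : R.Pr xb ≤ 2 / 5 := by
    refine le_trans (R.Pr_or_le _ _) ?_
    rw [hHc, g2 (fun ω => ¬ x (φ1 ω) w ∧ xv ω), hxv0]
    norm_num
  have hxa : R.Pr xa ≤ 2 / 5 := by
    have e1 := R.Pr_split (fun ω => ¬ xv (φ2 ω)) (fun ω => H (φ2 ω) ∧ c ω)
    rw [g2 (fun ω => ¬ xv ω), R1.Pr_not, hxv] at e1
    have e2 : R.Pr (fun ω => ¬ xv (φ2 ω) ∧ (H (φ2 ω) ∧ c ω)) = 1 / 5 := by
      rw [← hHc]
      refine Sp.Pr_congr fun ω => ?_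
      constructor
      · exact fun h => h.2
      · exact fun h => ⟨h.1.1, h⟩
    rw [e2] at e1
    change R.Pr (fun ω => ¬ xv (φ2 ω) ∧ ¬ (H (φ2 ω) ∧ c ω)) ≤ 2 / 5
    linarith
  let z : R.Ω → V → Prop := fun ω u =>
    if u = v then xv (φ2 ω)
    else if u = b then xb ω
    else if u = a then xa ω
    else if G.Adj v u then (¬ xv (φ2 ω) ∧ ¬ x (φ1 (φ2 ω)) (oth G u v))
    else x (φ1 (φ2 ω)) u
  have hzv : ∀ ω, z ω v ↔ xv (φ2 ω) := fun ω => by simp [z]
  have hzb : ∀ ω, z ω b ↔ xb ω := fun ω => by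
    simp only [z, if_neg hbv, if_true]
  have hza : ∀ ω, z ω a ↔ xa ω := fun ω => by
    simp only [z, if_neg ha.ne', if_neg hab.ne, if_true]
  have hzy : ∀ ω y, G.Adj v y → y ≠ a →
      (z ω y ↔ (¬ xv (φ2 ω) ∧ ¬ x (φ1 (φ2 ω)) (oth G y v))) := fun ω y hy hya => by
    have hyb : y ≠ b := fun h => hvb (h ▸ hy)
    simp only [z, if_neg hy.ne', if_neg hyb, if_neg hya, if_pos hy]
  have hzo : ∀ ω u, u ∉ X → (z ω u ↔ x (φ1 (φ2 ω)) u) := fun ω u hu => by
    have e1 : u ≠ v := fun h => hu (Or.inl h)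
    have e2 : u ≠ b := fun h => hu (Or.inr (Or.inl h))
    have e3 : ¬ G.Adj v u := fun h => hu (Or.inr (Or.inr h))
    have e4 : u ≠ a := fun h => e3 (h ▸ ha)
    simp only [z, if_neg e1, if_neg e2, if_neg e3, if_neg e4]
  refine good_of_le' hleaf R z (fun u => ?_) (fun ω u hu => ?_)
  · by_cases huv : u = v
    · rw [huv, Sp.Pr_congr hzv, g2 xv, hxv]
    · by_cases hub : u = b
      · rw [hub, Sp.Pr_congr hzb]
        exact hxb
      · by_cases hua : u = a
        · rw [hua, Sp.Pr_congr hza]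
          exact hxa
        · by_cases huy : G.Adj v u
          · rw [Sp.Pr_congr fun ω => hzy ω u huy hua,
              g2 (fun ω => ¬ xv ω ∧ ¬ x (φ1 ω) (oth G u v))]
            exact (hnn _).1
          · have huX : u ∉ X := by
              rintro (h | h | h)
              · exact huv h
              · exact hub h
              · exact huy h
            rw [Sp.Pr_congr fun ω => hzo ω u huX, g2 (fun ω => x (φ1 ω) u), g1 (fun ω => x ω u)]
            exact (h1 u).le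
  · by_cases huv : u = v
    · subst huv
      by_cases e1 : xv (φ2 ω)
      · exact Or.inl ((hzv ω).2 e1)
      · by_cases e2 : ∃ y, G.Adj u y ∧ y ≠ a ∧ ¬ x (φ1 (φ2 ω)) (oth G y u)
        · obtain ⟨y, hy, hya, hy'⟩ := e2
          exact Or.inr ⟨y, hy, (hzy ω y hy hya).2 ⟨e1, hy'⟩⟩
        · exact Or.inr ⟨a, ha, (hza ω).2 ⟨e1, fun h => e2 h.1.2⟩⟩
    · by_cases hub : u = b
      · subst hub
        by_cases e1 : xv (φ2 ω)
        · by_cases e2 : x (φ1 (φ2 ω)) w
          · exact Or.inr ⟨w, hbw, (hzo ω w hwX).2 e2⟩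
          · exact Or.inl ((hzb ω).2 (Or.inl ⟨e2, e1⟩))
        · by_cases e2 : H (φ2 ω) ∧ c ω
          · exact Or.inl ((hzb ω).2 (Or.inr e2))
          · exact Or.inr ⟨a, hab.symm, (hza ω).2 ⟨e1, e2⟩⟩
      · by_cases hua : u = a
        · subst hua
          by_cases e1 : xv (φ2 ω)
          · exact Or.inr ⟨v, ha.symm, (hzv ω).2 e1⟩
          · by_cases e2 : H (φ2 ω) ∧ c ω
            · exact Or.inr ⟨b, hab, (hzb ω).2 (Or.inr e2)⟩
            · exact Or.inl ((hza ω).2 ⟨e1, e2⟩)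
        · by_cases huy : G.Adj v u
          · by_cases e1 : xv (φ2 ω)
            · exact Or.inr ⟨v, huy.symm, (hzv ω).2 e1⟩
            · by_cases e2 : x (φ1 (φ2 ω)) (oth G u v)
              · exact Or.inr ⟨oth G u v, (oth_spec (hlink u huy) huy.symm).2.1,
                  (hzo ω _ (hoX u huy hua)).2 e2⟩
              · exact Or.inl ((hzy ω u huy hua).2 ⟨e1, e2⟩)
          · have huX : u ∉ X := by
              rintro (h | h | h)
              · exact huv h
              · exact hub h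
              · exact huy h
            exact dom_outside (fun w hw h => (hzo ω w hw).2 h) huX (h2 _ u (hdeg u huX hu))

end Pool.Agent.H49.Fdom
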