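import Pool.Agent.H49.Fdom.Lower.Prob

/-!
Laws of random binary words in which every window of three consecutive letters contains a one and
every letter is one with probability at most `2/5`.
-/

set_option autoImplicit false
set_option linter.unusedSectionVars false

namespace Pool.Agent.H49.Fdom

open Finset

/-- a law of words `c 0, …, c (k+1)` with prescribed joint law of the two ends -/
def FL (k : ℕ) (t : ℝ) : Prop :=
  ∃ (T : Sp) (c : T.Ω → ℕ → Prop), T.Pr (fun ω => c ω 0) = 2 / 5 ∧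
    T.Pr (fun ω => c ω (k + 1)) = 2 / 5 ∧
    T.Pr (fun ω => c ω 0 ∧ c ω (k + 1)) = t ∧
    (∀ i ≤ k + 1, T.Pr (fun ω => c ω i) ≤ 2 / 5) ∧
    ∀ ω, ∀ i < k, c ω i ∨ c ω (i + 1) ∨ c ω (i + 2)

/-- a law of cyclic words: `c 0 = c (k+1)` and all cyclic windows contain a one -/
def LL (k : ℕ) : Prop :=
  ∃ (T : Sp) (c : T.Ω → ℕ → Prop), T.Pr (fun ω => c ω 0) = 2 / 5 ∧
    (∀ ω, c ω 0 ↔ c ω (k + 1)) ∧
    (∀ i ≤ k + 1, T.Pr (fun ω => c ω i) ≤ 2 / 5) ∧
    (∀ ω, ∀ i < k, c ω i ∨ c ω (i + 1) ∨ c ω (i + 2)) ∧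
    ∀ ω, c ω k ∨ c ω 0 ∨ c ω 1

/-- uniform space on five points -/
noncomputable def S5 : Sp where
  Ω := Fin 5
  p := fun _ => 1 / 5
  pos := fun _ => by norm_num
  sum_one := by simp

theorem S5_Pr (A : Fin 5 → Bool) :
    S5.Pr (fun ω => A ω = true) = ((Finset.univ.filter fun r : Fin 5 => A r = true).card : ℝ) / 5 := by
  classical
  unfold Sp.Pr S5
  simp only
  rw [← Finset.sum_filter, Finset.sum_const, nsmul_eq_mul]
  ring_nf

theorem FL_of_table (k j : ℕ) (w : Fin 5 → ℕ → Bool)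
    (h0 : (Finset.univ.filter fun r : Fin 5 => w r 0 = true).card = 2)
    (h1 : (Finset.univ.filter fun r : Fin 5 => w r (k + 1) = true).card = 2)
    (h2 : (Finset.univ.filter fun r : Fin 5 => (w r 0 && w r (k + 1)) = true).card = j)
    (h3 : ∀ i < k + 2, (Finset.univ.filter fun r : Fin 5 => w r i = true).card ≤ 2)
    (h4 : ∀ r, ∀ i < k, (w r i || w r (i + 1) || w r (i + 2)) = true) : FL k ((j : ℝ) / 5) := by
  refine ⟨S5, fun r i => w r i = true, ?_, ?_, ?_, fun i hi => ?_, fun r i hi => ?_⟩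
  · rw [S5_Pr (fun r => w r 0), h0]
    norm_num
  · rw [S5_Pr (fun r => w r (k + 1)), h1]
    norm_num
  · rw [← h2, ← S5_Pr]
    exact Sp.Pr_congr fun ω => by simp
  · rw [S5_Pr (fun r => w r i)]
    have := h3 i (by omega)
    have h5 : (((Finset.univ.filter fun r : Fin 5 => w r i = true).card : ℕ) : ℝ) ≤ 2 := by
      exact_mod_cast this
    linarith
  · have := h4 r i hi
    simpa [Bool.or_eq_true, or_assoc] using this

theorem LL_of_table (k : ℕ) (w : Fin 5 → ℕ → Bool)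
    (h0 : (Finset.univ.filter fun r : Fin 5 => w r 0 = true).card = 2)
    (h1 : ∀ r, w r 0 = w r (k + 1))
    (h3 : ∀ i < k + 2, (Finset.univ.filter fun r : Fin 5 => w r i = true).card ≤ 2)
    (h4 : ∀ r, ∀ i < k, (w r i || w r (i + 1) || w r (i + 2)) = true)
    (h5 : ∀ r, (w r k || w r 0 || w r 1) = true) : LL k := by
  refine ⟨S5, fun r i => w r i = true, ?_, fun r => ?_, fun i hi => ?_, fun r i hi => ?_,
    fun r => ?_⟩
  · rw [S5_Pr (fun r => w r 0), h0]
    norm_num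
  · simp only [h1 r]
  · rw [S5_Pr (fun r => w r i)]
    have := h3 i (by omega)
    have h5 : (((Finset.univ.filter fun r : Fin 5 => w r i = true).card : ℕ) : ℝ) ≤ 2 := by
      exact_mod_cast this
    linarith
  · have := h4 r i hi
    simpa [Bool.or_eq_true, or_assoc] using this
  · have := h5 r
    simpa [Bool.or_eq_true, or_assoc] using this

/-- words of zeros and ones -/
def wd (l : List (List ℕ)) (r : Fin 5) (i : ℕ) : Bool := ((l.getD r.1 []).getD i 0) == 1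

theorem FL10 : FL 1 0 := by
  have := FL_of_table 1 0 (wd [[1,0,0],[1,0,0],[0,0,1],[0,0,1],[0,1,0]])
    (by decide) (by decide) (by decide) (by decide) (by decide)
  simpa using this

theorem FL11 : FL 1 (1 / 5) := by
  have := FL_of_table 1 1 (wd [[1,0,1],[1,0,0],[0,0,1],[0,1,0],[0,1,0]])
    (by decide) (by decide) (by decide) (by decide) (by decide)
  simpa using this

theorem FL21 : FL 2 (1 / 5) := by
  have := FL_of_table 2 1 (wd [[1,0,0,1],[1,0,1,0],[0,1,0,1],[0,1,0,0],[0,0,1,0]])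
    (by decide) (by decide) (by decide) (by decide) (by decide)
  simpa using this

theorem FL22 : FL 2 (2 / 5) := by
  have := FL_of_table 2 2 (wd [[1,0,0,1],[1,0,0,1],[0,1,0,0],[0,1,0,0],[0,0,1,0]])
    (by decide) (by decide) (by decide) (by decide) (by decide)
  simpa using this

theorem FL30 : FL 3 0 := by
  have := FL_of_table 3 0 (wd [[1,0,0,1,0],[1,0,0,1,0],[0,1,0,0,1],[0,1,0,0,1],[0,0,1,0,0]])
    (by decide) (by decide) (by decide) (by decide) (by decide)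
  simpa using this

theorem FL32 : FL 3 (2 / 5) := by
  have := FL_of_table 3 2 (wd [[1,1,0,0,1],[1,0,0,1,1],[0,0,1,0,0],[0,0,1,0,0],[0,1,0,1,0]])
    (by decide) (by decide) (by decide) (by decide) (by decide)
  simpa using this

theorem FL40 : FL 4 0 := by
  have := FL_of_table 4 0
    (wd [[1,0,0,1,0,0],[1,0,0,1,0,0],[0,0,1,0,0,1],[0,0,1,0,0,1],[0,1,0,0,1,0]])
    (by decide) (by decide) (by decide) (by decide) (by decide)
  simpa using this

theorem FL42 : FL 4 (2 / 5) := by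
  have := FL_of_table 4 2
    (wd [[1,0,1,0,0,1],[1,0,0,1,0,1],[0,1,0,0,1,0],[0,1,0,0,1,0],[0,0,1,1,0,0]])
    (by decide) (by decide) (by decide) (by decide) (by decide)
  simpa using this

theorem FL50 : FL 5 0 := by
  have := FL_of_table 5 0
    (wd [[1,0,0,1,0,1,0],[1,1,0,0,1,0,0],[0,1,0,1,0,0,1],[0,0,1,0,0,1,1],[0,0,1,0,1,0,0]])
    (by decide) (by decide) (by decide) (by decide) (by decide)
  simpa using this

theorem LL2 : LL 2 :=
  LL_of_table 2 (wd [[1,0,0,1],[1,0,0,1],[0,1,0,0],[0,1,0,0],[0,0,1,0]])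
    (by decide) (by decide) (by decide) (by decide) (by decide)

theorem LL4 : LL 4 :=
  LL_of_table 4 (wd [[1,0,1,0,0,1],[0,1,0,1,0,0],[0,0,1,0,1,0],[1,0,0,1,0,1],[0,1,0,0,1,0]])
    (by decide) (by decide) (by decide) (by decide) (by decide)

theorem LL9 : LL 9 :=
  LL_of_table 9 (wd [[1,0,1,0,0,1,0,1,0,0,1],[0,1,0,1,0,0,1,0,1,0,0],[0,0,1,0,1,0,0,1,0,1,0],
    [1,0,0,1,0,1,0,0,1,0,1],[0,1,0,0,1,0,1,0,0,1,0]])
    (by decide) (by decide) (by decide) (by decide) (by decide)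

theorem FL_mix {k : ℕ} {t₁ t₂ : ℝ} (h₁ : FL k t₁) (h₂ : FL k t₂) (c : ℝ) (hc0 : 0 ≤ c)
    (hc1 : c ≤ 1) : FL k (c * t₁ + (1 - c) * t₂) := by
  obtain ⟨S, x, a1, a2, a3, a4, a5⟩ := h₁
  obtain ⟨T, y, b1, b2, b3, b4, b5⟩ := h₂
  obtain ⟨R, φ, ψ, b, h⟩ := Sp.mix S T c hc0 hc1
  refine ⟨R, fun ω i => (b ω ∧ x (φ ω) i) ∨ (¬ b ω ∧ y (ψ ω) i), ?_, ?_, ?_, fun i hi => ?_,
    fun ω i hi => ?_⟩
  · rw [h (fun ω => x ω 0) (fun ω => y ω 0), a1, b1]
    ring
  · rw [h (fun ω => x ω (k + 1)) (fun ω => y ω (k + 1)), a2, b2]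
    ring
  · rw [← a3, ← b3, ← h (fun ω => x ω 0 ∧ x ω (k + 1)) (fun ω => y ω 0 ∧ y ω (k + 1))]
    exact Sp.Pr_congr fun ω => by tauto
  · rw [h (fun ω => x ω i) (fun ω => y ω i)]
    have e1 := a4 i hi
    have e2 := b4 i hi
    nlinarith
  · have e1 := a5 (φ ω) i hi
    have e2 := b5 (ψ ω) i hi
    by_cases hb : b ω
    · simp only [hb, true_and, not_true_eq_false, false_and, or_false]
      exact e1
    · simp only [hb, false_and, not_false_eq_true, true_and, false_or]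
      exact e2

/-- the inserted word -/
def ins (c : ℕ → Prop) : ℕ → Prop
  | 0 => c 0
  | 1 => c 1
  | 2 => ¬ c 0 ∧ ¬ c 1
  | (i + 3) => c i

theorem FL_ins {k : ℕ} {t : ℝ} (hk : 1 ≤ k) (h : FL k t) : FL (k + 3) t := by
  obtain ⟨T, c, h0, h1, h2, h3, h4⟩ := h
  refine ⟨T, fun ω => ins (c ω), h0, h1, h2, fun i hi => ?_, fun ω i hi => ?_⟩
  · match i, hi with
    | 0, _ => exact h3 0 (by omega)
    | 1, _ => exact h3 1 (by omega)
    | 2, _ =>
      refine le_trans (Sp.Pr_mono fun ω hω => ?_) (h3 2 (by omega))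
      have h5 := h4 ω 0 (by omega)
      rcases h5 with h5 | h5 | h5
      · exact absurd h5 hω.1
      · exact absurd h5 hω.2
      · exact h5
    | (i + 3), hi => exact h3 i (by omega)
  · match i, hi with
    | 0, _ =>
      change c ω 0 ∨ c ω 1 ∨ (¬ c ω 0 ∧ ¬ c ω 1)
      tauto
    | 1, _ =>
      change c ω 1 ∨ (¬ c ω 0 ∧ ¬ c ω 1) ∨ c ω 0
      tauto
    | 2, _ =>
      change (¬ c ω 0 ∧ ¬ c ω 1) ∨ c ω 0 ∨ c ω 1
      tauto
    | (i + 3), hi => exact h4 ω i (by omega)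

theorem LL_ins {k : ℕ} (hk : 1 ≤ k) (h : LL k) : LL (k + 3) := by
  obtain ⟨T, c, h0, h1, h3, h4, h5⟩ := h
  refine ⟨T, fun ω => ins (c ω), h0, h1, fun i hi => ?_, fun ω i hi => ?_, h5⟩
  · match i, hi with
    | 0, _ => exact h3 0 (by omega)
    | 1, _ => exact h3 1 (by omega)
    | 2, _ =>
      refine le_trans (Sp.Pr_mono fun ω hω => ?_) (h3 2 (by omega))
      have h5 := h4 ω 0 (by omega)
      rcases h5 with h5 | h5 | h5
      · exact absurd h5 hω.1
      · exact absurd h5 hω.2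
      · exact h5
    | (i + 3), hi => exact h3 i (by omega)
  · match i, hi with
    | 0, _ =>
      change c ω 0 ∨ c ω 1 ∨ (¬ c ω 0 ∧ ¬ c ω 1)
      tauto
    | 1, _ =>
      change c ω 1 ∨ (¬ c ω 0 ∧ ¬ c ω 1) ∨ c ω 0
      tauto
    | 2, _ =>
      change (¬ c ω 0 ∧ ¬ c ω 1) ∨ c ω 0 ∨ c ω 1
      tauto
    | (i + 3), hi => exact h4 ω i (by omega)

/-- the end laws for zero and full correlation -/
theorem FL_ends : ∀ k, 3 ≤ k → FL k 0 ∧ FL k (2 / 5) := by
  intro k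
  induction k using Nat.strong_induction_on with
  | _ k ih =>
    intro hk
    by_cases h6 : k < 6
    · have : k = 3 ∨ k = 4 ∨ k = 5 := by omega
      rcases this with rfl | rfl | rfl
      · exact ⟨FL30, FL32⟩
      · exact ⟨FL40, FL42⟩
      · exact ⟨FL50, FL_ins (by norm_num) FL22⟩
    · obtain ⟨m, rfl⟩ : ∃ m, k = m + 3 := ⟨k - 3, by omega⟩
      obtain ⟨e1, e2⟩ := ih m (by omega) (by omega)
      exact ⟨FL_ins (by omega) e1, FL_ins (by omega) e2⟩

/-- long threads can be filled in for any correlation -/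
theorem FL_all {k : ℕ} (hk : 3 ≤ k) {t : ℝ} (h0 : 0 ≤ t) (h1 : t ≤ 2 / 5) : FL k t := by
  obtain ⟨e1, e2⟩ := FL_ends k hk
  have := FL_mix e2 e1 (5 / 2 * t) (by linarith) (by linarith)
  have h2 : 5 / 2 * t * (2 / 5) + (1 - 5 / 2 * t) * 0 = t := by ring
  rwa [h2] at this

theorem LL_all : ∀ k, 8 ≤ k → LL k := by
  intro k
  induction k using Nat.strong_induction_on with
  | _ k ih =>
    intro hk
    by_cases h6 : k < 11
    · have : k = 8 ∨ k = 9 ∨ k = 10 := by omega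
      rcases this with rfl | rfl | rfl
      · exact LL_ins (k := 5) (by norm_num) (LL_ins (k := 2) (by norm_num) LL2)
      · exact LL9
      · exact LL_ins (k := 7) (by norm_num) (LL_ins (k := 4) (by norm_num) LL4)
    · obtain ⟨m, rfl⟩ : ∃ m, k = m + 3 := ⟨k - 3, by omega⟩
      exact LL_ins (by omega) (ih m (by omega) (by omega))

end Pool.Agent.H49.Fdom
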