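import Pool.Agent.H49.Fdom.Lower.Graph
import Pool.Agent.H49.Fdom.Lower.FL

/-!
The induction statement and its first reductions.
-/

set_option autoImplicit false
set_option linter.unusedSectionVars false

namespace Pool.Agent.H49.Fdom

open Finset

variable {V : Type} [Fintype V]

/-- `v` is dominated by the set `x` -/
def Dom (G : SimpleGraph V) (x : V → Prop) (v : V) : Prop := x v ∨ ∃ u, G.Adj v u ∧ x u

theorem Dom.mono {G : SimpleGraph V} {x y : V → Prop} {v : V} (h : Dom G x v)
    (hxy : ∀ v, x v → y v) : Dom G y v := by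
  rcases h with h | ⟨u, hu, h⟩
  · exact Or.inl (hxy v h)
  · exact Or.inr ⟨u, hu, hxy u h⟩

/-- a random set with marginals `2/5` which dominates every vertex of degree at least two, and
such that for each leaf, with probability at least `3/5`, the leaf or its neighbour is chosen -/
def Good (G : SimpleGraph V) : Prop :=
  ∃ (S : Sp) (x : S.Ω → V → Prop), (∀ v, S.Pr (fun ω => x ω v) = 2 / 5) ∧
    (∀ ω v, 2 ≤ dg G v → Dom G (x ω) v) ∧
    ∀ a b, dg G a = 1 → G.Adj a b → S.Pr (fun ω => ¬ x ω a ∧ ¬ x ω b) ≤ 2 / 5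

/-- it suffices to have marginals at most `2/5` -/
theorem good_of_le {G : SimpleGraph V} (S : Sp) (x : S.Ω → V → Prop)
    (h1 : ∀ v, S.Pr (fun ω => x ω v) ≤ 2 / 5) (h2 : ∀ ω v, 2 ≤ dg G v → Dom G (x ω) v)
    (h3 : ∀ a b, dg G a = 1 → G.Adj a b → S.Pr (fun ω => ¬ x ω a ∧ ¬ x ω b) ≤ 2 / 5) :
    Good G := by
  classical
  have key : ∀ s : Finset V, ∃ (S : Sp) (x : S.Ω → V → Prop), (∀ v, S.Pr (fun ω => x ω v) ≤ 2 / 5) ∧
      (∀ v ∈ s, S.Pr (fun ω => x ω v) = 2 / 5) ∧ (∀ ω v, 2 ≤ dg G v → Dom G (x ω) v) ∧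
      ∀ a b, dg G a = 1 → G.Adj a b → S.Pr (fun ω => ¬ x ω a ∧ ¬ x ω b) ≤ 2 / 5 := by
    intro s
    induction s using Finset.induction_on with
    | empty => exact ⟨S, x, h1, by simp, h2, h3⟩
    | insert v0 s hv0 ih =>
      obtain ⟨S, x, h1, h4, h2, h3⟩ := ih
      have hm := h1 v0
      set m := S.Pr (fun ω => x ω v0) with hmdef
      have hm0 : 0 ≤ m := S.Pr_nonneg _
      obtain ⟨R, φ, b, hφ, hb⟩ := S.coin ((2 / 5 - m) / (1 - m))
        (div_nonneg (by linarith) (by linarith))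
        (by rw [div_le_one (by linarith)]; linarith)
      let y : R.Ω → V → Prop := fun ω v => x (φ ω) v ∨ (v = v0 ∧ ¬ x (φ ω) v0 ∧ b ω)
      have hxy : ∀ ω v, x (φ ω) v → y ω v := fun ω v h => Or.inl h
      have hne : ∀ v, v ≠ v0 → R.Pr (fun ω => y ω v) = S.Pr (fun ω => x ω v) := by
        intro v hv
        rw [← hφ]
        exact Sp.Pr_congr fun ω => by simp [y, hv]
      have heq : R.Pr (fun ω => y ω v0) = 2 / 5 := by
        have e1 := R.Pr_split (fun ω => y ω v0) (fun ω => x (φ ω) v0)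
        have e2 : R.Pr (fun ω => y ω v0 ∧ x (φ ω) v0) = m := by
          rw [hmdef, ← hφ]
          exact Sp.Pr_congr fun ω => by simp only [y]; tauto
        have e3 : R.Pr (fun ω => y ω v0 ∧ ¬ x (φ ω) v0) = (2 / 5 - m) / (1 - m) * (1 - m) := by
          have e4 := hb (fun ω => ¬ x ω v0)
          rw [S.Pr_not, ← hmdef] at e4
          rw [← e4]
          exact Sp.Pr_congr fun ω => by simp only [y]; tauto
        rw [div_mul_cancel₀ _ (by linarith)] at e3
        linarith
      refine ⟨R, y, fun v => ?_, fun v hv => ?_, fun ω v hv => (h2 (φ ω) v hv).mono (hxy ω),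
        fun a b ha hab => ?_⟩
      · by_cases hv : v = v0
        · rw [hv, heq]
        · rw [hne v hv]
          exact h1 v
      · by_cases hv' : v = v0
        · rw [hv', heq]
        · rw [hne v hv']
          exact h4 v ((Finset.mem_insert.1 hv).resolve_left hv')
      · refine le_trans ?_ (h3 a b ha hab)
        rw [← hφ (fun ω => ¬ x ω a ∧ ¬ x ω b)]
        exact Sp.Pr_mono fun ω h => ⟨fun h' => h.1 (hxy ω a h'), fun h' => h.2 (hxy ω b h')⟩
  obtain ⟨S, x, -, h4, h2, h3⟩ := key Finset.univ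
  exact ⟨S, x, fun v => h4 v (Finset.mem_univ v), h2, h3⟩

theorem dom_of_le {G G' : SimpleGraph V} (hle : G' ≤ G) {x : V → Prop} {v : V} (h : Dom G' x v) :
    Dom G x v := by
  rcases h with h | ⟨u, hu, h⟩
  · exact Or.inl h
  · exact Or.inr ⟨u, hle hu, h⟩

/-- domination outside the modified set is inherited -/
theorem dom_outside {G : SimpleGraph V} {X : Set V} {x y : V → Prop} (hag : ∀ v, v ∉ X → x v → y v)
    {v : V} (hv : v ∉ X) (h : Dom (delX G X) x v) : Dom G y v := by
  rcases h with h | ⟨u, hu, h⟩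
  · exact Or.inl (hag v hv h)
  · exact Or.inr ⟨u, hu.1, hag u hu.2.2 h⟩

theorem two_le_dg_delE {G : SimpleGraph V} {a b v : V} (hva : v ≠ a) (hvb : v ≠ b) :
    dg (delE G a b) v = dg G v := by
  unfold dg
  congr 1
  ext u
  simp only [SimpleGraph.mem_neighborSet, delE]
  constructor
  · exact fun h => h.1
  · exact fun h => ⟨h, fun h' => hva h'.1, fun h' => hvb h'.1⟩

theorem two_le_dg_delE_of_three {G : SimpleGraph V} {a b v : V} (hab : a ≠ b) (hv : 3 ≤ dg G v) :
    2 ≤ dg (delE G a b) v := by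
  by_cases hva : v = a
  · subst hva
    obtain ⟨c, d, hcd, hc, hd, h1, h2⟩ := exists_two_others (a := b) hv
    exact two_le_dg.2 ⟨c, d, hcd, ⟨h1, fun h => hc h.2, fun h => hab h.1⟩,
      ⟨h2, fun h => hd h.2, fun h => hab h.1⟩⟩
  · by_cases hvb : v = b
    · subst hvb
      obtain ⟨c, d, hcd, hc, hd, h1, h2⟩ := exists_two_others (a := a) hv
      exact two_le_dg.2 ⟨c, d, hcd, ⟨h1, fun h => hva h.1, fun h => hc h.2⟩,
        ⟨h2, fun h => hva h.1, fun h => hd h.2⟩⟩
    · rw [two_le_dg_delE hva hvb]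
      omega

/-- no leaf: the leaf condition is void -/
theorem good_of_le' {G : SimpleGraph V} (hleaf : ∀ v, dg G v ≠ 1) (S : Sp) (x : S.Ω → V → Prop)
    (h1 : ∀ v, S.Pr (fun ω => x ω v) ≤ 2 / 5) (h2 : ∀ ω v, 2 ≤ dg G v → Dom G (x ω) v) :
    Good G :=
  good_of_le S x h1 h2 (fun a _ ha _ => absurd ha (hleaf a))

/-- an edge between two vertices of degree at least three can be deleted -/
theorem step_edge {G : SimpleGraph V} (hleaf : ∀ v, dg G v ≠ 1)
    (ih : ∀ G' : SimpleGraph V, G' < G → Good G') {a b : V} (hab : G.Adj a b) (ha : 3 ≤ dg G a)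
    (hb : 3 ≤ dg G b) : Good G := by
  obtain ⟨S, x, h1, h2, -⟩ := ih _ (delE_lt hab)
  refine good_of_le' hleaf S x (fun v => (h1 v).le) fun ω v hv => ?_
  refine dom_of_le (delE_le G a b) (h2 ω v ?_)
  by_cases hva : v = a
  · rw [hva]
    exact two_le_dg_delE_of_three hab.ne ha
  · by_cases hvb : v = b
    · rw [hvb]
      exact two_le_dg_delE_of_three hab.ne hb
    · rw [two_le_dg_delE hva hvb]
      exact hv

/-- a leaf can be deleted -/
theorem step_leaf {G : SimpleGraph V} (ih : ∀ G' : SimpleGraph V, G' < G → Good G') {p y : V}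
    (hp : dg G p = 1) (hpy : G.Adj p y) : Good G := by
  classical
  obtain ⟨S, x, h1, h2, h3⟩ := ih _ (delE_lt hpy)
  have hpy' : p ≠ y := hpy.ne
  have hiso : ∀ u, ¬ (delE G p y).Adj u p := by
    intro u hu
    have h4 : u = y := nbrs_of_dg_one hp hpy hu.1.symm
    exact hu.2.2 ⟨h4, rfl⟩
  -- domination and leaves away from `p` and `y`
  have hdom : ∀ (z : V → Prop) ω, (∀ v, v ≠ p → x ω v → z v) → ∀ v, v ≠ p →
      2 ≤ dg (delE G p y) v → Dom G z v := by
    intro z ω hz v hvp hv
    rcases h2 ω v hv with h | ⟨u, hu, h⟩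
    · exact Or.inl (hz v hvp h)
    · exact Or.inr ⟨u, hu.1, hz u (fun h' => hiso v (h' ▸ hu)) h⟩
  by_cases hy : dg G y = 2
  · obtain ⟨z, hz1, hz2⟩ := exists_other (a := p) (by omega : 2 ≤ dg G y) hpy.symm
    have hyn := nbrs_of_dg_two hy hpy.symm hz2 (Ne.symm hz1)
    have hzy : z ≠ y := hz2.ne'
    have hadj' : (delE G p y).Adj y z := ⟨hz2, fun h => hpy' h.1.symm, fun h => hz1 h.2⟩
    have hdy : dg (delE G p y) y = 1 := by
      have e1 : 1 ≤ dg (delE G p y) y := one_le_dg hadj'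
      by_contra hcon
      obtain ⟨a, b, hab, ha, hb⟩ := two_le_dg.1 (by omega : 2 ≤ dg (delE G p y) y)
      have ha' : a = z := ((hyn a).1 ha.1).resolve_left (fun h => hiso y (h ▸ ha))
      have hb' : b = z := ((hyn b).1 hb.1).resolve_left (fun h => hiso y (h ▸ hb))
      exact hab (ha'.trans hb'.symm)
    let x' : S.Ω → V → Prop := fun ω v => if v = p then (¬ x ω y ∧ ¬ x ω z) else x ω v
    have hx'p : ∀ ω, x' ω p ↔ (¬ x ω y ∧ ¬ x ω z) := fun ω => by simp [x']
    have hx' : ∀ ω v, v ≠ p → (x' ω v ↔ x ω v) := fun ω v hv => by simp [x', hv]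
    refine good_of_le S x' (fun v => ?_) (fun ω v hv => ?_) (fun a b ha hab => ?_)
    · by_cases hv : v = p
      · rw [hv, Sp.Pr_congr hx'p]
        exact h3 y z hdy hadj'
      · rw [Sp.Pr_congr fun ω => hx' ω v hv]
        exact (h1 v).le
    · have hvp : v ≠ p := by rintro rfl; omega
      by_cases hvy : v = y
      · subst hvy
        by_cases e1 : x ω v
        · exact Or.inl ((hx' ω v hvp).2 e1)
        · by_cases e2 : x ω z
          · exact Or.inr ⟨z, hz2, (hx' ω z hz1).2 e2⟩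
          · exact Or.inr ⟨p, hpy.symm, (hx'p ω).2 ⟨e1, e2⟩⟩
      · exact hdom (x' ω) ω (fun u hu h => (hx' ω u hu).2 h) v hvp
          (by rw [two_le_dg_delE hvp hvy]; exact hv)
    · by_cases hap : a = p
      · subst hap
        have hby : b = y := nbrs_of_dg_one hp hpy hab
        subst hby
        refine le_trans (Sp.Pr_mono fun ω h => ?_) (h1 z).le
        rw [hx'p, hx' ω b (Ne.symm hpy')] at h
        by_contra hz
        exact h.1 ⟨h.2, hz⟩
      · have hay : a ≠ y := by rintro rfl; omega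
        have hbp : b ≠ p := by
          rintro rfl
          exact hay (nbrs_of_dg_one hp hpy hab.symm)
        refine le_trans (Sp.Pr_mono fun ω h => ?_) (h3 a b
          (by rw [two_le_dg_delE hap hay]; exact ha)
          ⟨hab, fun h => hap h.1, fun h => hay h.1⟩)
        rw [hx' ω a hap, hx' ω b hbp] at h
        exact h
  · obtain ⟨R, φ, b, hφ, hb⟩ := S.coin (2 / 3) (by norm_num) (by norm_num)
    let x' : R.Ω → V → Prop := fun ω v => if v = p then (¬ x (φ ω) y ∧ b ω) else x (φ ω) v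
    have hx'p : ∀ ω, x' ω p ↔ (¬ x (φ ω) y ∧ b ω) := fun ω => by simp [x']
    have hx' : ∀ ω v, v ≠ p → (x' ω v ↔ x (φ ω) v) := fun ω v hv => by simp [x', hv]
    have hy5 : S.Pr (fun ω => ¬ x ω y) = 3 / 5 := by
      rw [S.Pr_not, h1]; norm_num
    have hpp : R.Pr (fun ω => ¬ x (φ ω) y ∧ b ω) = 2 / 5 := by
      rw [hb (fun ω => ¬ x ω y), hy5]; norm_num
    have hpy2 : R.Pr (fun ω => ¬ x' ω p ∧ ¬ x' ω y) ≤ 2 / 5 := by
      have e1 := R.Pr_split (fun ω => ¬ x (φ ω) y) b
      rw [hφ (fun ω => ¬ x ω y), hy5, hpp] at e1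
      have e2 : R.Pr (fun ω => ¬ x' ω p ∧ ¬ x' ω y) = R.Pr (fun ω => ¬ x (φ ω) y ∧ ¬ b ω) :=
        Sp.Pr_congr fun ω => by
          rw [hx'p, hx' ω y (Ne.symm hpy')]
          tauto
      rw [e2]
      linarith
    refine good_of_le R x' (fun v => ?_) (fun ω v hv => ?_) (fun a c ha hab => ?_)
    · by_cases hv : v = p
      · rw [hv, Sp.Pr_congr hx'p, hpp]
      · rw [Sp.Pr_congr fun ω => hx' ω v hv, hφ (fun ω => x ω v)]
        exact (h1 v).le
    · have hvp : v ≠ p := by rintro rfl; omega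
      refine hdom (x' ω) (φ ω) (fun u hu h => (hx' ω u hu).2 h) v hvp ?_
      by_cases hvy : v = y
      · rw [hvy]
        exact two_le_dg_delE_of_three hpy' (by rw [hvy] at hv; omega)
      · rw [two_le_dg_delE hvp hvy]
        exact hv
    · by_cases hap : a = p
      · subst hap
        have hby : c = y := nbrs_of_dg_one hp hpy hab
        subst hby
        exact hpy2
      · by_cases hay : a = y
        · subst hay
          have hcp : c = p := nbrs_of_dg_one ha hpy.symm hab
          subst hcp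
          refine le_trans (le_of_eq (Sp.Pr_congr fun ω => ?_)) hpy2
          exact and_comm
        · have hcp : c ≠ p := by
            rintro rfl
            exact hay (nbrs_of_dg_one hp hpy hab.symm)
          have e1 := h3 a c (by rw [two_le_dg_delE hap hay]; exact ha)
            ⟨hab, fun h => hap h.1, fun h => hay h.1⟩
          rw [← hφ (fun ω => ¬ x ω a ∧ ¬ x ω c)] at e1
          refine le_trans (Sp.Pr_mono fun ω h => ?_) e1
          rw [hx' ω a hap, hx' ω c hcp] at h
          exact h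

end Pool.Agent.H49.Fdom
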