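import Mathlib

/-!
Graph preliminaries for the lower bound: degrees, small cores, deleting vertices, long paths of
vertices of degree two.
-/

set_option autoImplicit false
set_option linter.unusedSectionVars false

namespace Pool.Agent.H49.Fdom

open Finset

variable {V : Type} [Fintype V]

/-- degree -/
noncomputable def dg (G : SimpleGraph V) (v : V) : ℕ := (G.neighborSet v).ncard

theorem two_le_dg {G : SimpleGraph V} {v : V} :
    2 ≤ dg G v ↔ ∃ a b, a ≠ b ∧ G.Adj v a ∧ G.Adj v b := by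
  unfold dg
  constructor
  · intro h
    obtain ⟨a, ha, b, hb, hab⟩ := (Set.one_lt_ncard (Set.toFinite _)).1 h
    exact ⟨a, b, hab, ha, hb⟩
  · rintro ⟨a, b, hab, ha, hb⟩
    exact (Set.one_lt_ncard (Set.toFinite _)).2 ⟨a, ha, b, hb, hab⟩

theorem three_le_dg {G : SimpleGraph V} {v : V} :
    3 ≤ dg G v ↔ ∃ a b c, a ≠ b ∧ a ≠ c ∧ b ≠ c ∧ G.Adj v a ∧ G.Adj v b ∧ G.Adj v c := by
  unfold dg
  constructor
  · intro h
    obtain ⟨a, b, c, ha, hb, hc, hab, hac, hbc⟩ := (Set.two_lt_ncard_iff (Set.toFinite _)).1 h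
    exact ⟨a, b, c, hab, hac, hbc, ha, hb, hc⟩
  · rintro ⟨a, b, c, hab, hac, hbc, ha, hb, hc⟩
    exact (Set.two_lt_ncard_iff (Set.toFinite _)).2 ⟨a, b, c, ha, hb, hc, hab, hac, hbc⟩

theorem nbrs_of_dg_two {G : SimpleGraph V} {v a b : V} (h : dg G v = 2) (ha : G.Adj v a)
    (hb : G.Adj v b) (hab : a ≠ b) (w : V) : G.Adj v w ↔ w = a ∨ w = b := by
  constructor
  · intro hw
    by_contra hcon
    rw [not_or] at hcon
    have : 3 ≤ dg G v := three_le_dg.2 ⟨a, b, w, hab, Ne.symm hcon.1, Ne.symm hcon.2, ha, hb, hw⟩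
    omega
  · rintro (rfl | rfl) <;> assumption

theorem exists_other {G : SimpleGraph V} {v a : V} (h : 2 ≤ dg G v) (_ha : G.Adj v a) :
    ∃ b, b ≠ a ∧ G.Adj v b := by
  obtain ⟨x, y, hxy, hx, hy⟩ := two_le_dg.1 h
  by_cases hxa : x = a
  · exact ⟨y, fun hya => hxy (hxa.trans hya.symm), hy⟩
  · exact ⟨x, hxa, hx⟩

theorem exists_two_others {G : SimpleGraph V} {v a : V} (h : 3 ≤ dg G v) :
    ∃ b c, b ≠ c ∧ b ≠ a ∧ c ≠ a ∧ G.Adj v b ∧ G.Adj v c := by
  obtain ⟨x, y, z, hxy, hxz, hyz, hx, hy, hz⟩ := three_le_dg.1 h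
  by_cases hxa : x = a
  · subst hxa
    exact ⟨y, z, hyz, Ne.symm hxy, Ne.symm hxz, hy, hz⟩
  · by_cases hya : y = a
    · subst hya
      exact ⟨x, z, hxz, hxa, Ne.symm hyz, hx, hz⟩
    · exact ⟨x, y, hxy, hxa, hya, hx, hy⟩

theorem one_le_dg {G : SimpleGraph V} {v a : V} (h : G.Adj v a) : 1 ≤ dg G v := by
  unfold dg
  exact (Set.ncard_pos (Set.toFinite _)).2 ⟨a, h⟩

theorem nbrs_of_dg_one {G : SimpleGraph V} {v a b : V} (h : dg G v = 1) (ha : G.Adj v a)
    (hb : G.Adj v b) : b = a := by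
  by_contra hab
  have : 2 ≤ dg G v := two_le_dg.2 ⟨a, b, Ne.symm hab, ha, hb⟩
  omega

/-- deleting all edges incident with a set of vertices -/
def delX (G : SimpleGraph V) (X : Set V) : SimpleGraph V where
  Adj u v := G.Adj u v ∧ u ∉ X ∧ v ∉ X
  symm := ⟨fun _ _ h => ⟨h.1.symm, h.2.2, h.2.1⟩⟩
  loopless := ⟨fun _ h => G.loopless.irrefl _ h.1⟩

theorem delX_le (G : SimpleGraph V) (X : Set V) : delX G X ≤ G := fun _ _ h => h.1

theorem delX_lt {G : SimpleGraph V} {X : Set V} {u v : V} (hu : u ∈ X) (huv : G.Adj u v) :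
    delX G X < G := by
  refine lt_of_le_of_ne (delX_le G X) fun h => ?_
  have : (delX G X).Adj u v := by rw [h]; exact huv
  exact this.2.1 hu

theorem two_le_dg_delX {G : SimpleGraph V} {X : Set V} {z : V} (hz : z ∉ X) (h : 2 ≤ dg G z)
    (hX : ∀ y ∈ X, ¬ G.Adj z y) : 2 ≤ dg (delX G X) z := by
  obtain ⟨a, b, hab, ha, hb⟩ := two_le_dg.1 h
  exact two_le_dg.2 ⟨a, b, hab, ⟨ha, hz, fun h => hX a h ha⟩, ⟨hb, hz, fun h => hX b h hb⟩⟩

theorem two_le_dg_delX' {G : SimpleGraph V} {X : Set V} {z w : V} (hz : z ∉ X) (h : 3 ≤ dg G z)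
    (hX : ∀ y ∈ X, G.Adj z y → y = w) : 2 ≤ dg (delX G X) z := by
  obtain ⟨a, b, hab, haw, hbw, ha, hb⟩ := exists_two_others (a := w) h
  exact two_le_dg.2 ⟨a, b, hab, ⟨ha, hz, fun h => haw (hX a h ha)⟩,
    ⟨hb, hz, fun h => hbw (hX b h hb)⟩⟩

/-- deleting one edge -/
def delE (G : SimpleGraph V) (a b : V) : SimpleGraph V where
  Adj u v := G.Adj u v ∧ ¬ (u = a ∧ v = b) ∧ ¬ (u = b ∧ v = a)
  symm := ⟨fun _ _ h => ⟨h.1.symm, fun h' => h.2.2 ⟨h'.2, h'.1⟩, fun h' => h.2.1 ⟨h'.2, h'.1⟩⟩⟩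
  loopless := ⟨fun _ h => G.loopless.irrefl _ h.1⟩

theorem delE_le (G : SimpleGraph V) (a b : V) : delE G a b ≤ G := fun _ _ h => h.1

theorem delE_lt {G : SimpleGraph V} {a b : V} (h : G.Adj a b) : delE G a b < G := by
  refine lt_of_le_of_ne (delE_le G a b) fun h' => ?_
  have : (delE G a b).Adj a b := by rw [h']; exact h
  exact this.2.1 ⟨rfl, rfl⟩

/-- every nonempty set of at most `N` vertices has a member with at most one neighbour in it -/
def NS (N : ℕ) (G : SimpleGraph V) : Prop :=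
  ∀ U : Finset V, U.Nonempty → U.card ≤ N → ∃ v ∈ U, ∀ y ∈ U, ∀ z ∈ U, G.Adj v y → G.Adj v z → y = z

theorem NS.mono {N : ℕ} {G G' : SimpleGraph V} (h : NS N G) (hle : G' ≤ G) : NS N G' := by
  intro U hU hUc
  obtain ⟨v, hv, h1⟩ := h U hU hUc
  exact ⟨v, hv, fun y hy z hz h2 h3 => h1 y hy z hz (hle h2) (hle h3)⟩

/-- a core contains a cycle -/
theorem exists_cycle_of_core (G : SimpleGraph V) (U : Finset V) (hU : U.Nonempty)
    (h : ∀ v ∈ U, ∃ y ∈ U, ∃ z ∈ U, y ≠ z ∧ G.Adj v y ∧ G.Adj v z) :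
    ∃ (a : V) (c : G.Walk a a), c.IsCycle ∧ c.length ≤ U.card := by
  classical
  obtain ⟨u0, hu0⟩ := hU
  have : Nonempty (U : Set V) := ⟨⟨u0, hu0⟩⟩
  obtain ⟨u, v, p, hp, hmax⟩ :=
    SimpleGraph.Walk.exists_isPath_forall_isPath_length_le_length (G.induce (U : Set V))
  obtain ⟨y, hy, z, hz, hyz, h1, h2⟩ := h u.1 u.2
  -- both neighbours of the start are on the path
  have hon : ∀ y (hy : y ∈ (U : Set V)), G.Adj u.1 y → (⟨y, hy⟩ : (U : Set V)) ∈ p.support := by
    intro y hy hadj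
    by_contra hnot
    have hadj' : (G.induce (U : Set V)).Adj ⟨y, hy⟩ u := hadj.symm
    have := hmax _ _ (SimpleGraph.Walk.cons hadj' p) (hp.cons hnot)
    simp at this
  -- one of them is not the second vertex
  have hex : ∃ w : (U : Set V), w ∈ p.support ∧ (G.induce (U : Set V)).Adj w u ∧
      s(w, u) ∉ p.edges := by
    by_contra hcon
    push Not at hcon
    have e1 := hcon ⟨y, hy⟩ (hon y hy h1) h1.symm
    have e2 := hcon ⟨z, hz⟩ (hon z hz h2) h2.symm
    cases p with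
    | nil => simp at e1
    | cons hadj q =>
      rw [SimpleGraph.Walk.edges_cons, List.mem_cons] at e1 e2
      have hu : u ∉ q.support := by
        have := hp
        rw [SimpleGraph.Walk.cons_isPath_iff] at this
        exact this.2
      have f1 : ∀ w : (U : Set V), s(w, u) ∉ q.edges := fun w hw =>
        hu (q.snd_mem_support_of_mem_edges hw)
      rcases e1 with e1 | e1
      · rcases e2 with e2 | e2
        · have := e1.trans e2.symm
          rw [Sym2.eq_iff] at this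
          rcases this with ⟨h3, -⟩ | ⟨h3, h4⟩
          · exact hyz (congrArg Subtype.val h3)
          · have := congrArg Subtype.val h3
            exact G.loopless.irrefl _ (this ▸ h1)
        · exact f1 _ e2
      · exact f1 _ e1
  obtain ⟨w, hw, hadj, hedge⟩ := hex
  let q := p.takeUntil w hw
  have hq : q.IsPath := hp.takeUntil hw
  have hc : (SimpleGraph.Walk.cons hadj q).IsCycle := by
    rw [SimpleGraph.Walk.cons_isCycle_iff]
    refine ⟨hq, fun h3 => hedge ?_⟩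
    exact SimpleGraph.Walk.edges_takeUntil_subset_edges p hw h3
  refine ⟨(SimpleGraph.Embedding.induce (U : Set V)).toHom w,
    (SimpleGraph.Walk.cons hadj q).map (SimpleGraph.Embedding.induce (U : Set V)).toHom,
    ?_, ?_⟩
  · exact hc.map (SimpleGraph.Embedding.induce (G := G) (U : Set V)).injective
  · rw [SimpleGraph.Walk.length_map, SimpleGraph.Walk.length_cons]
    have := hq.length_lt
    simpa using this

theorem NS_of_egirth {N : ℕ} {G : SimpleGraph V} (h : ((N + 1 : ℕ) : ℕ∞) ≤ G.egirth) : NS N G := by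
  intro U hU hUc
  by_contra hcon
  push Not at hcon
  obtain ⟨a, c, hc, hlen⟩ := exists_cycle_of_core G U hU (fun v hv => by
    obtain ⟨y, hy, z, hz, h1, h2, h3⟩ := hcon v hv
    exact ⟨y, hy, z, hz, h3, h1, h2⟩)
  have h1 := SimpleGraph.le_egirth.1 h a c hc
  have h2 : N + 1 ≤ c.length := by exact_mod_cast h1
  omega

end Pool.Agent.H49.Fdom
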