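import Pool.Agent.H49.Fdom.Lower.Good

/-!
Maximal paths of vertices of degree two, and their removal.
-/

set_option autoImplicit false
set_option linter.unusedSectionVars false

namespace Pool.Agent.H49.Fdom

open Finset

variable {V : Type} [Fintype V]

/-- a path of `m` distinct vertices of degree two -/
structure LinkPath (G : SimpleGraph V) (m : ℕ) (c : ℕ → V) : Prop where
  link : ∀ i < m, dg G (c i) = 2
  inj : ∀ i < m, ∀ j < m, c i = c j → i = j
  adj : ∀ i, i + 1 < m → G.Adj (c i) (c (i + 1))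

theorem LinkPath.le_card {G : SimpleGraph V} {m : ℕ} {c : ℕ → V} (h : LinkPath G m c) :
    m ≤ Fintype.card V := by
  have h1 : Function.Injective (fun i : Fin m => c i.1) := fun i j hij =>
    Fin.ext (h.inj i.1 i.2 j.1 j.2 hij)
  simpa using Fintype.card_le_of_injective _ h1

theorem LinkPath.rev {G : SimpleGraph V} {m : ℕ} {c : ℕ → V} (h : LinkPath G m c) :
    LinkPath G m (fun i => c (m - 1 - i)) := by
  refine ⟨fun i hi => h.link _ (by omega), fun i hi j hj hij => ?_, fun i hi => ?_⟩
  · have := h.inj _ (by omega) _ (by omega) hij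
    omega
  · have := h.adj (m - 1 - (i + 1)) (by omega)
    have h1 : m - 1 - (i + 1) + 1 = m - 1 - i := by omega
    rw [h1] at this
    exact this.symm

theorem exists_max_linkPath {G : SimpleGraph V} {m0 : ℕ} (h : ∃ c, LinkPath G m0 c) :
    ∃ m c, m0 ≤ m ∧ LinkPath G m c ∧ ∀ c', ¬ LinkPath G (m + 1) c' := by
  by_contra hcon
  push Not at hcon
  have key : ∀ n, ∃ c, LinkPath G (m0 + n) c := by
    intro n
    induction n with
    | zero => exact h
    | succ n ih =>
      obtain ⟨c, hc⟩ := ih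
      exact hcon (m0 + n) c (by omega) hc
  obtain ⟨c, hc⟩ := key (Fintype.card V + 1)
  have := hc.le_card
  omega

theorem LinkPath.nbrs {G : SimpleGraph V} {m : ℕ} {c : ℕ → V} (h : LinkPath G m c) {i : ℕ}
    (hi : i + 2 < m) (w : V) : G.Adj (c (i + 1)) w ↔ w = c i ∨ w = c (i + 2) := by
  refine nbrs_of_dg_two (h.link _ (by omega)) (h.adj i (by omega)).symm
    (h.adj (i + 1) (by omega)) (fun h' => ?_) w
  have := h.inj _ (by omega) _ (by omega) h'
  omega

theorem LinkPath.max_end {G : SimpleGraph V} {m : ℕ} {c : ℕ → V} (h : LinkPath G m c)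
    (hm : 2 ≤ m) (hmax : ∀ c', ¬ LinkPath G (m + 1) c') {a : V} (ha : G.Adj (c 0) a)
    (ha1 : a ≠ c 1) (ha2 : dg G a = 2) : a = c (m - 1) := by
  by_contra hcon
  by_cases hex : ∃ i < m, a = c i
  · obtain ⟨i, hi, rfl⟩ := hex
    have hi0 : i ≠ 0 := by
      rintro rfl
      exact G.loopless.irrefl _ ha
    have hi1 : i ≠ 1 := by
      rintro rfl
      exact ha1 rfl
    have hi2 : i ≠ m - 1 := by
      rintro rfl
      exact hcon rfl
    obtain ⟨j, rfl⟩ : ∃ j, i = j + 1 := ⟨i - 1, by omega⟩
    have := (h.nbrs (i := j) (by omega) (c 0)).1 ha.symm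
    rcases this with h1 | h1
    · have := h.inj _ (by omega) _ (by omega) h1
      omega
    · have := h.inj _ (by omega) _ (by omega) h1
      omega
  · push Not at hex
    refine hmax (fun i => Nat.casesOn i a c) ⟨fun i hi => ?_, fun i hi j hj hij => ?_,
      fun i hi => ?_⟩
    · cases i with
      | zero => exact ha2
      | succ i => exact h.link i (by omega)
    · cases i with
      | zero =>
        cases j with
        | zero => rfl
        | succ j => exact absurd hij (hex j (by omega))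
      | succ i =>
        cases j with
        | zero => exact absurd hij.symm (hex i (by omega))
        | succ j =>
          have := h.inj i (by omega) j (by omega) hij
          omega
    · cases i with
      | zero => exact ha.symm
      | succ i => exact h.adj i (by omega)

/-- a path whose inner vertices `C 1, …, C k` have degree two and are distinct -/
structure Thread (G : SimpleGraph V) (k : ℕ) (C : ℕ → V) : Prop where
  adj : ∀ i ≤ k, G.Adj (C i) (C (i + 1))
  link : ∀ i, 1 ≤ i → i ≤ k → dg G (C i) = 2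
  inj : ∀ i j, 1 ≤ i → i ≤ k → 1 ≤ j → j ≤ k → C i = C j → i = j
  end0 : ∀ i, 1 ≤ i → i ≤ k → C i ≠ C 0
  end1 : ∀ i, 1 ≤ i → i ≤ k → C i ≠ C (k + 1)

/-- three consecutive vertices of degree two lie in a thread -/
theorem exists_thread {G : SimpleGraph V} (h3 : ∃ c, LinkPath G 3 c) :
    ∃ k C, 2 ≤ k ∧ Thread G k C ∧
      (C 0 = C (k + 1) ∨ (3 ≤ k ∧ dg G (C 0) ≠ 2 ∧ dg G (C (k + 1)) ≠ 2)) := by
  obtain ⟨m, c, hm, hc, hmax⟩ := exists_max_linkPath h3
  have hl0 : 2 ≤ dg G (c 0) := (hc.link 0 (by omega)).ge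
  have hl1 : 2 ≤ dg G (c (m - 1)) := (hc.link (m - 1) (by omega)).ge
  obtain ⟨a, ha1, ha2⟩ := exists_other (a := c 1) hl0 (hc.adj 0 (by omega))
  have hadj1 : G.Adj (c (m - 1)) (c (m - 2)) := by
    have := hc.adj (m - 2) (by omega)
    rw [show m - 2 + 1 = m - 1 by omega] at this
    exact this.symm
  obtain ⟨b, hb1, hb2⟩ := exists_other (a := c (m - 2)) hl1 hadj1
  by_cases hcyc : a = c (m - 1)
  · -- the whole component is a cycle
    refine ⟨m - 1, fun i => if i = 0 then c (m - 1) else c (i - 1), by omega, ?_, Or.inl ?_⟩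
    · refine ⟨fun i hi => ?_, fun i h1 h2 => ?_, fun i j h1 h2 h3 h4 h5 => ?_, fun i h1 h2 => ?_,
        fun i h1 h2 => ?_⟩
      · by_cases hi0 : i = 0
        · subst hi0
          simp only [if_true, zero_add, one_ne_zero, if_false, Nat.sub_self]
          rw [← hcyc]
          exact ha2.symm
        · simp only [hi0, if_false, Nat.add_sub_cancel, Nat.succ_ne_zero]
          have := hc.adj (i - 1) (by omega)
          rwa [show i - 1 + 1 = i by omega] at this
      · simp only [show i ≠ 0 by omega, if_false]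
        exact hc.link _ (by omega)
      · simp only [show i ≠ 0 by omega, show j ≠ 0 by omega, if_false] at h5
        have := hc.inj _ (by omega) _ (by omega) h5
        omega
      · simp only [show i ≠ 0 by omega, if_false, if_true]
        intro h5
        have := hc.inj _ (by omega) _ (by omega) h5
        omega
      · simp only [show i ≠ 0 by omega, if_false, Nat.succ_ne_zero, Nat.add_sub_cancel]
        intro h5
        have := hc.inj _ (by omega) _ (by omega) h5
        omega
    · simp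
  · have hda : dg G a ≠ 2 := fun h => hcyc (hc.max_end (by omega) hmax ha2 ha1 h)
    have hdb : dg G b ≠ 2 := by
      intro h
      have h1 := hc.rev.max_end (by omega) hmax (a := b) (by simpa using hb2)
        (by simpa [show m - 1 - 1 = m - 2 by omega] using hb1) h
      simp only [Nat.sub_self] at h1
      -- `b = c 0`
      have h2 : G.Adj (c 0) (c (m - 1)) := by rw [← h1]; exact hb2.symm
      have h3 := (nbrs_of_dg_two (hc.link 0 (by omega)) (hc.adj 0 (by omega)) ha2 (Ne.symm ha1)
        (c (m - 1))).1 h2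
      rcases h3 with h3 | h3
      · have := hc.inj _ (by omega) _ (by omega) h3
        omega
      · exact hcyc h3.symm
    refine ⟨m, fun i => if i = 0 then a else if i = m + 1 then b else c (i - 1), by omega, ?_,
      Or.inr ⟨hm, ?_, ?_⟩⟩
    · refine ⟨fun i hi => ?_, fun i h1 h2 => ?_, fun i j h1 h2 h3 h4 h5 => ?_, fun i h1 h2 => ?_,
        fun i h1 h2 => ?_⟩
      · by_cases hi0 : i = 0
        · subst hi0
          simp only [if_true, zero_add, one_ne_zero, if_false, Nat.sub_self,
            show 1 ≠ m + 1 by omega]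
          exact ha2.symm
        · by_cases him : i = m
          · subst him
            simp only [hi0, if_false, if_true, show i ≠ i + 1 by omega, Nat.succ_ne_zero]
            exact hb2
          · simp only [hi0, if_false, show i ≠ m + 1 by omega, Nat.succ_ne_zero,
              show i + 1 ≠ m + 1 by omega, Nat.add_sub_cancel]
            have := hc.adj (i - 1) (by omega)
            rwa [show i - 1 + 1 = i by omega] at this
      · simp only [show i ≠ 0 by omega, show i ≠ m + 1 by omega, if_false]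
        exact hc.link _ (by omega)
      · simp only [show i ≠ 0 by omega, show j ≠ 0 by omega, show i ≠ m + 1 by omega,
          show j ≠ m + 1 by omega, if_false] at h5
        have := hc.inj _ (by omega) _ (by omega) h5
        omega
      · simp only [show i ≠ 0 by omega, show i ≠ m + 1 by omega, if_false, if_true]
        intro h5
        exact hda (h5 ▸ hc.link _ (by omega))
      · simp only [show i ≠ 0 by omega, show i ≠ m + 1 by omega, if_false, if_true,
          Nat.succ_ne_zero]
        intro h5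
        exact hdb (h5 ▸ hc.link _ (by omega))
    · simpa using hda
    · simpa using hdb

/-- the inner vertices of a thread -/
def inner (k : ℕ) (C : ℕ → V) : Set V := {v | ∃ i, 1 ≤ i ∧ i ≤ k ∧ C i = v}

theorem Thread.prev_ne_next {G : SimpleGraph V} {k : ℕ} {C : ℕ → V} (h : Thread G k C)
    (hk : 2 ≤ k) {i : ℕ} (h1 : 1 ≤ i) (h2 : i ≤ k) : C (i - 1) ≠ C (i + 1) := by
  intro h3
  by_cases hi1 : i = 1
  · subst hi1
    exact h.end0 2 (by omega) hk h3.symm
  · by_cases hik : i = k
    · subst hik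
      exact h.end1 (i - 1) (by omega) (by omega) h3
    · have := h.inj (i - 1) (i + 1) (by omega) (by omega) (by omega) (by omega) h3
      omega

theorem Thread.nbrs {G : SimpleGraph V} {k : ℕ} {C : ℕ → V} (h : Thread G k C)
    (hk : 2 ≤ k) {i : ℕ} (h1 : 1 ≤ i) (h2 : i ≤ k) (w : V) :
    G.Adj (C i) w ↔ w = C (i - 1) ∨ w = C (i + 1) := by
  refine nbrs_of_dg_two (h.link i h1 h2) ?_ (h.adj i h2) (h.prev_ne_next hk h1 h2) w
  have := h.adj (i - 1) (by omega)
  rw [show i - 1 + 1 = i by omega] at this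
  exact this.symm

/-- a vertex off the thread has no inner neighbours -/
theorem Thread.no_nbr {G : SimpleGraph V} {k : ℕ} {C : ℕ → V} (h : Thread G k C)
    (hk : 2 ≤ k) {z : V} (hz : z ∉ inner k C) (hz0 : z ≠ C 0) (hz1 : z ≠ C (k + 1)) :
    ∀ y ∈ inner k C, ¬ G.Adj z y := by
  rintro y ⟨i, h1, h2, rfl⟩ hadj
  rcases (h.nbrs hk h1 h2 z).1 hadj.symm with h3 | h3
  · by_cases hi1 : i = 1
    · subst hi1
      exact hz0 h3
    · exact hz ⟨i - 1, by omega, by omega, h3.symm⟩
  · by_cases hik : i = k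
    · subst hik
      exact hz1 h3
    · exact hz ⟨i + 1, by omega, by omega, h3.symm⟩

theorem Thread.C0_not_mem {G : SimpleGraph V} {k : ℕ} {C : ℕ → V} (h : Thread G k C) :
    C 0 ∉ inner k C := by
  rintro ⟨i, h1, h2, h3⟩
  exact h.end0 i h1 h2 h3

theorem Thread.C1_not_mem {G : SimpleGraph V} {k : ℕ} {C : ℕ → V} (h : Thread G k C) :
    C (k + 1) ∉ inner k C := by
  rintro ⟨i, h1, h2, h3⟩
  exact h.end1 i h1 h2 h3

/-- replace the values on the inner vertices -/
def ovl (k : ℕ) (C : ℕ → V) (c : ℕ → Prop) (x : V → Prop) (v : V) : Prop :=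
  (∃ i, 1 ≤ i ∧ i ≤ k ∧ C i = v ∧ c i) ∨ (v ∉ inner k C ∧ x v)

theorem Thread.ovl_in {G : SimpleGraph V} {k : ℕ} {C : ℕ → V} (h : Thread G k C)
    (c : ℕ → Prop) (x : V → Prop) {i : ℕ} (h1 : 1 ≤ i) (h2 : i ≤ k) :
    ovl k C c x (C i) ↔ c i := by
  constructor
  · rintro (⟨j, h3, h4, h5, h6⟩ | ⟨h3, -⟩)
    · rw [← h.inj j i h3 h4 h1 h2 h5]
      exact h6
    · exact absurd ⟨i, h1, h2, rfl⟩ h3
  · exact fun h3 => Or.inl ⟨i, h1, h2, rfl, h3⟩

theorem ovl_out {k : ℕ} {C : ℕ → V} (c : ℕ → Prop) (x : V → Prop) {v : V}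
    (hv : v ∉ inner k C) : ovl k C c x v ↔ x v := by
  constructor
  · rintro (⟨j, h3, h4, h5, h6⟩ | ⟨-, h3⟩)
    · exact absurd ⟨j, h3, h4, h5⟩ hv
    · exact h3
  · exact fun h3 => Or.inr ⟨hv, h3⟩

/-- a core of at most eight vertices is impossible -/
theorem Thread.long {G : SimpleGraph V} (hNS : NS 8 G) {k : ℕ} {C : ℕ → V} (h : Thread G k C)
    (hk : 2 ≤ k) (hloop : C 0 = C (k + 1)) : 8 ≤ k := by
  classical
  by_contra hcon
  obtain ⟨v, hv, huniq⟩ := hNS ((Finset.range (k + 1)).image C) ⟨C 0, by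
    exact Finset.mem_image.2 ⟨0, by simp, rfl⟩⟩
    (le_trans Finset.card_image_le (by simp; omega))
  have hmem : ∀ j ≤ k + 1, C j ∈ (Finset.range (k + 1)).image C := by
    intro j hj
    by_cases hj' : j = k + 1
    · rw [hj', ← hloop]
      exact Finset.mem_image.2 ⟨0, by simp, rfl⟩
    · exact Finset.mem_image.2 ⟨j, by simp; omega, rfl⟩
  obtain ⟨i, hi, rfl⟩ := Finset.mem_image.1 hv
  rw [Finset.mem_range] at hi
  by_cases hi0 : i = 0
  · subst hi0
    have h1 := huniq (C 1) (hmem 1 (by omega)) (C k) (hmem k (by omega)) (h.adj 0 (by omega))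
      (by rw [hloop]; exact (h.adj k le_rfl).symm)
    have := h.inj 1 k le_rfl (by omega) (by omega) le_rfl h1
    omega
  · have h1 := huniq (C (i - 1)) (hmem _ (by omega)) (C (i + 1)) (hmem _ (by omega))
      ((h.nbrs hk (by omega) (by omega) _).2 (Or.inl rfl))
      ((h.nbrs hk (by omega) (by omega) _).2 (Or.inr rfl))
    exact h.prev_ne_next hk (by omega) (by omega) h1

theorem Thread.del_lt {G : SimpleGraph V} {k : ℕ} {C : ℕ → V} (h : Thread G k C)
    (hk : 1 ≤ k) : delX G (inner k C) < G :=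
  delX_lt (u := C 1) (v := C 2) ⟨1, le_rfl, hk, rfl⟩ (h.adj 1 hk)

/-- removing a thread which returns to its origin -/
theorem step_loop {G : SimpleGraph V} (hleaf : ∀ v, dg G v ≠ 1)
    (ih : ∀ G' : SimpleGraph V, G' < G → Good G') {k : ℕ} {C : ℕ → V} (h : Thread G k C)
    (hk : 8 ≤ k) (hloop : C 0 = C (k + 1)) : Good G := by
  obtain ⟨S, x, h1, h2, -⟩ := ih _ (h.del_lt (by omega))
  obtain ⟨T, c, t0, t1, t2, t3, t4⟩ := LL_all k hk
  obtain ⟨R, φ, ψ, hφ, hψ, hag⟩ := Sp.glue2 S T (fun ω => x ω (C 0)) (fun ω => x ω (C 0))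
    (fun ω => c ω 0) (fun ω => c ω 0) (by rw [h1, t0]) (by rw [h1, t0])
    (by simp only [and_self]; rw [h1, t0])
  let y : R.Ω → V → Prop := fun ω => ovl k C (c (ψ ω)) (x (φ ω))
  have hout : ∀ ω v, v ∉ inner k C → (y ω v ↔ x (φ ω) v) := fun ω v hv =>
    ovl_out (c (ψ ω)) (x (φ ω)) hv
  have hC : ∀ ω i, i ≤ k + 1 → (y ω (C i) ↔ c (ψ ω) i) := by
    intro ω i hi
    by_cases hi0 : i = 0
    · subst hi0
      exact (hout ω _ h.C0_not_mem).trans (hag ω).1
    · by_cases hik : i = k + 1
      · subst hik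
        rw [← hloop]
        exact ((hout ω _ h.C0_not_mem).trans (hag ω).1).trans (t1 (ψ ω))
      · exact h.ovl_in _ _ (by omega) (by omega)
  refine good_of_le' hleaf R y (fun v => ?_) (fun ω v hv => ?_)
  · by_cases hv : v ∈ inner k C
    · obtain ⟨i, h3, h4, rfl⟩ := hv
      rw [Sp.Pr_congr fun ω => hC ω i (by omega), hψ (fun ω => c ω i)]
      exact t2 i (by omega)
    · rw [Sp.Pr_congr fun ω => hout ω v hv, hφ (fun ω => x ω v)]
      exact (h1 v).le
  · by_cases hv0 : v = C 0
    · subst hv0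
      rcases t4 (ψ ω) with h5 | h5 | h5
      · refine Or.inr ⟨C k, ?_, (hC ω k (by omega)).2 h5⟩
        rw [hloop]
        exact (h.adj k le_rfl).symm
      · exact Or.inl ((hC ω 0 (by omega)).2 h5)
      · exact Or.inr ⟨C 1, h.adj 0 (by omega), (hC ω 1 (by omega)).2 h5⟩
    · by_cases hvin : v ∈ inner k C
      · obtain ⟨i, h3, h4, rfl⟩ := hvin
        have h5 := t3 (ψ ω) (i - 1) (by omega)
        rw [show i - 1 + 1 = i by omega, show i - 1 + 2 = i + 1 by omega] at h5
        rcases h5 with h5 | h5 | h5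
        · exact Or.inr ⟨C (i - 1), (h.nbrs (by omega) h3 h4 _).2 (Or.inl rfl),
            (hC ω _ (by omega)).2 h5⟩
        · exact Or.inl ((hC ω _ (by omega)).2 h5)
        · exact Or.inr ⟨C (i + 1), (h.nbrs (by omega) h3 h4 _).2 (Or.inr rfl),
            (hC ω _ (by omega)).2 h5⟩
      · refine dom_outside (fun w hw h5 => (hout ω w hw).2 h5) hvin (h2 (φ ω) v ?_)
        exact two_le_dg_delX hvin hv (h.no_nbr (by omega) hvin hv0 (by rw [← hloop]; exact hv0))

/-- removing a long thread between two branch vertices -/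
theorem step_thread {G : SimpleGraph V} (hleaf : ∀ v, dg G v ≠ 1)
    (ih : ∀ G' : SimpleGraph V, G' < G → Good G') {k : ℕ} {C : ℕ → V} (h : Thread G k C)
    (hk : 3 ≤ k) (hne : C 0 ≠ C (k + 1)) (hd0 : dg G (C 0) ≠ 2) (hd1 : dg G (C (k + 1)) ≠ 2) :
    Good G := by
  obtain ⟨S, x, h1, h2, -⟩ := ih _ (h.del_lt (by omega))
  set t := S.Pr (fun ω => x ω (C 0) ∧ x ω (C (k + 1))) with ht
  have ht0 : 0 ≤ t := S.Pr_nonneg _
  have ht1 : t ≤ 2 / 5 := by
    rw [← h1 (C 0)]
    exact Sp.Pr_mono fun ω h => h.1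
  obtain ⟨T, c, c0, c1, c2, c3, c4⟩ := FL_all hk ht0 ht1
  obtain ⟨R, φ, ψ, hφ, hψ, hag⟩ := Sp.glue2 S T (fun ω => x ω (C 0)) (fun ω => x ω (C (k + 1)))
    (fun ω => c ω 0) (fun ω => c ω (k + 1)) (by rw [h1, c0]) (by rw [h1, c1]) (by rw [c2])
  let y : R.Ω → V → Prop := fun ω => ovl k C (c (ψ ω)) (x (φ ω))
  have hout : ∀ ω v, v ∉ inner k C → (y ω v ↔ x (φ ω) v) := fun ω v hv =>
    ovl_out (c (ψ ω)) (x (φ ω)) hv
  have hC : ∀ ω i, i ≤ k + 1 → (y ω (C i) ↔ c (ψ ω) i) := by
    intro ω i hi
    by_cases hi0 : i = 0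
    · subst hi0
      exact (hout ω _ h.C0_not_mem).trans (hag ω).1
    · by_cases hik : i = k + 1
      · subst hik
        exact (hout ω _ h.C1_not_mem).trans (hag ω).2
      · exact h.ovl_in _ _ (by omega) (by omega)
  have hdeg0 : 3 ≤ dg G (C 0) := by
    have e1 := one_le_dg (h.adj 0 (by omega))
    have e2 := hleaf (C 0)
    omega
  have hdeg1 : 3 ≤ dg G (C (k + 1)) := by
    have e1 := one_le_dg (h.adj k le_rfl).symm
    have e2 := hleaf (C (k + 1))
    omega
  refine good_of_le' hleaf R y (fun v => ?_) (fun ω v hv => ?_)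
  · by_cases hv : v ∈ inner k C
    · obtain ⟨i, h3, h4, rfl⟩ := hv
      rw [Sp.Pr_congr fun ω => hC ω i (by omega), hψ (fun ω => c ω i)]
      exact c3 i (by omega)
    · rw [Sp.Pr_congr fun ω => hout ω v hv, hφ (fun ω => x ω v)]
      exact (h1 v).le
  · by_cases hvin : v ∈ inner k C
    · obtain ⟨i, h3, h4, rfl⟩ := hvin
      have h5 := c4 (ψ ω) (i - 1) (by omega)
      rw [show i - 1 + 1 = i by omega, show i - 1 + 2 = i + 1 by omega] at h5
      rcases h5 with h5 | h5 | h5
      · exact Or.inr ⟨C (i - 1), (h.nbrs (by omega) h3 h4 _).2 (Or.inl rfl),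
          (hC ω _ (by omega)).2 h5⟩
      · exact Or.inl ((hC ω _ (by omega)).2 h5)
      · exact Or.inr ⟨C (i + 1), (h.nbrs (by omega) h3 h4 _).2 (Or.inr rfl),
          (hC ω _ (by omega)).2 h5⟩
    · refine dom_outside (fun w hw h5 => (hout ω w hw).2 h5) hvin (h2 (φ ω) v ?_)
      by_cases hv0 : v = C 0
      · subst hv0
        refine two_le_dg_delX' (w := C 1) hvin hdeg0 ?_
        rintro y ⟨i, h3, h4, rfl⟩ hadj
        by_cases hi1 : i = 1
        · rw [hi1]
        · exfalso
          rcases (h.nbrs (by omega) h3 h4 _).1 hadj.symm with h5 | h5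
          · exact h.end0 (i - 1) (by omega) (by omega) h5.symm
          · by_cases hik : i = k
            · subst hik
              exact hne h5
            · exact h.end0 (i + 1) (by omega) (by omega) h5.symm
      · by_cases hv1 : v = C (k + 1)
        · subst hv1
          refine two_le_dg_delX' (w := C k) hvin hdeg1 ?_
          rintro y ⟨i, h3, h4, rfl⟩ hadj
          by_cases hik : i = k
          · rw [hik]
          · exfalso
            rcases (h.nbrs (by omega) h3 h4 _).1 hadj.symm with h5 | h5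
            · by_cases hi1 : i = 1
              · subst hi1
                exact hne h5.symm
              · exact h.end1 (i - 1) (by omega) (by omega) h5.symm
            · exact h.end1 (i + 1) (by omega) (by omega) h5.symm
        · exact two_le_dg_delX hvin hv (h.no_nbr (by omega) hvin hv0 hv1)

/-- three consecutive vertices of degree two can be dealt with -/
theorem step_path {G : SimpleGraph V} (hNS : NS 8 G) (hleaf : ∀ v, dg G v ≠ 1)
    (ih : ∀ G' : SimpleGraph V, G' < G → Good G') (h3 : ∃ c, LinkPath G 3 c) : Good G := by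
  obtain ⟨k, C, hk, hC, h⟩ := exists_thread h3
  by_cases hloop : C 0 = C (k + 1)
  · exact step_loop hleaf ih hC (hC.long hNS hk hloop) hloop
  · rcases h with h | ⟨h4, h5, h6⟩
    · exact absurd h hloop
    · exact step_thread hleaf ih hC h4 hloop h5 h6

end Pool.Agent.H49.Fdom
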