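import Mathlib

/-!
Finite probability spaces with positive atoms; independent coins and gluing.
-/

set_option autoImplicit false
set_option linter.unusedSectionVars false

namespace Pool.Agent.H49.Fdom

open Finset

/-- a finite probability space all of whose atoms have positive mass -/
structure Sp where
  /-- outcomes -/
  Ω : Type
  [fin : Fintype Ω]
  /-- weights -/
  p : Ω → ℝ
  pos : ∀ ω, 0 < p ω
  sum_one : ∑ ω, p ω = 1

attribute [instance] Sp.fin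

open Classical in
/-- probability of an event -/
noncomputable def Sp.Pr (S : Sp) (A : S.Ω → Prop) : ℝ := ∑ ω, if A ω then S.p ω else 0

namespace Sp

variable (S : Sp)

theorem Pr_congr {S : Sp} {A B : S.Ω → Prop} (h : ∀ ω, A ω ↔ B ω) : S.Pr A = S.Pr B := by
  have : A = B := funext fun ω => propext (h ω)
  rw [this]

theorem Pr_nonneg (A : S.Ω → Prop) : 0 ≤ S.Pr A := by
  classical
  unfold Pr
  refine Finset.sum_nonneg fun ω _ => ?_
  split_ifs
  · exact (S.pos ω).le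
  · exact le_rfl

theorem Pr_mono {S : Sp} {A B : S.Ω → Prop} (h : ∀ ω, A ω → B ω) : S.Pr A ≤ S.Pr B := by
  classical
  unfold Pr
  refine Finset.sum_le_sum fun ω _ => ?_
  by_cases hA : A ω
  · rw [if_pos hA, if_pos (h ω hA)]
  · rw [if_neg hA]
    split_ifs
    · exact (S.pos ω).le
    · exact le_rfl

theorem Pr_split (A B : S.Ω → Prop) :
    S.Pr A = S.Pr (fun ω => A ω ∧ B ω) + S.Pr (fun ω => A ω ∧ ¬ B ω) := by
  classical
  unfold Pr
  rw [← Finset.sum_add_distrib]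
  refine Finset.sum_congr rfl fun ω _ => ?_
  by_cases hA : A ω <;> by_cases hB : B ω <;> simp [hA, hB]

theorem Pr_true : S.Pr (fun _ => True) = 1 := by
  unfold Pr
  simp [S.sum_one]

theorem Pr_false : S.Pr (fun _ => False) = 0 := by
  unfold Pr
  simp

theorem Pr_not (A : S.Ω → Prop) : S.Pr (fun ω => ¬ A ω) = 1 - S.Pr A := by
  have h := S.Pr_split (fun _ => True) A
  rw [S.Pr_true] at h
  have h1 : S.Pr (fun ω => True ∧ A ω) = S.Pr A := Pr_congr fun ω => by simp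
  have h2 : S.Pr (fun ω => True ∧ ¬ A ω) = S.Pr (fun ω => ¬ A ω) := Pr_congr fun ω => by simp
  rw [h1, h2] at h
  linarith

theorem Pr_le_one (A : S.Ω → Prop) : S.Pr A ≤ 1 := by
  have h1 := S.Pr_not A
  have h2 := S.Pr_nonneg (fun ω => ¬ A ω)
  linarith

theorem Pr_pos {S : Sp} {A : S.Ω → Prop} {ω : S.Ω} (h : A ω) : 0 < S.Pr A := by
  classical
  unfold Pr
  have h1 : (if A ω then S.p ω else 0) ≤ ∑ ω, if A ω then S.p ω else 0 :=
    Finset.single_le_sum (f := fun ω => if A ω then S.p ω else 0)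
      (fun ω _ => by
        split_ifs
        · exact (S.pos ω).le
        · exact le_rfl) (Finset.mem_univ ω)
  rw [if_pos h] at h1
  exact lt_of_lt_of_le (S.pos ω) h1

/-- union bound for disjoint or overlapping events -/
theorem Pr_or_le (A B : S.Ω → Prop) : S.Pr (fun ω => A ω ∨ B ω) ≤ S.Pr A + S.Pr B := by
  have h := S.Pr_split (fun ω => A ω ∨ B ω) A
  have h1 : S.Pr (fun ω => (A ω ∨ B ω) ∧ A ω) ≤ S.Pr A := Pr_mono fun ω h => h.2
  have h2 : S.Pr (fun ω => (A ω ∨ B ω) ∧ ¬ A ω) ≤ S.Pr B :=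
    Pr_mono fun ω h => h.1.resolve_left h.2
  linarith

open Classical in
/-- a space from a nonnegative weight function -/
theorem exists_of_weight {Ω : Type} [Fintype Ω] (p : Ω → ℝ) (h0 : ∀ ω, 0 ≤ p ω)
    (h1 : ∑ ω, p ω = 1) :
    ∃ (S : Sp) (φ : S.Ω → Ω), (∀ ω, p (φ ω) ≠ 0) ∧
      ∀ A : Ω → Prop, S.Pr (fun ω => A (φ ω)) = ∑ ω, if A ω then p ω else 0 := by
  have key : ∀ f : Ω → ℝ, (∀ ω, p ω = 0 → f ω = 0) →
      ∑ ω : {ω // p ω ≠ 0}, f ω.1 = ∑ ω, f ω := by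
    intro f hf
    rw [← Finset.sum_subtype (Finset.univ.filter fun ω => p ω ≠ 0) (fun ω => by simp) f,
      Finset.sum_filter]
    refine Finset.sum_congr rfl fun ω _ => ?_
    by_cases h : p ω = 0
    · rw [if_neg (not_not.2 h), hf ω h]
    · rw [if_pos h]
  refine ⟨⟨{ω // p ω ≠ 0}, fun ω => p ω.1, fun ω => lt_of_le_of_ne (h0 _) (Ne.symm ω.2), ?_⟩,
    fun ω => ω.1, fun ω => ω.2, fun A => ?_⟩
  · rw [key p fun ω h => h]
    exact h1
  · unfold Pr
    exact key (fun ω => if A ω then p ω else 0) (fun ω h => by simp [h])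


/-- adjoin an independent coin of bias `c` -/
theorem coin (c : ℝ) (hc0 : 0 ≤ c) (hc1 : c ≤ 1) :
    ∃ (R : Sp) (φ : R.Ω → S.Ω) (b : R.Ω → Prop),
      (∀ A : S.Ω → Prop, R.Pr (fun ω => A (φ ω)) = S.Pr A) ∧
      (∀ A : S.Ω → Prop, R.Pr (fun ω => A (φ ω) ∧ b ω) = c * S.Pr A) := by
  classical
  obtain ⟨R, φ, -, hφ⟩ := exists_of_weight (Ω := S.Ω × Bool)
    (fun z => S.p z.1 * (if z.2 then c else 1 - c))
    (fun z => mul_nonneg (S.pos _).le (by split_ifs <;> linarith))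
    (by
      rw [Fintype.sum_prod_type]
      simp only [Fintype.sum_bool, if_true, Bool.false_eq_true, if_false]
      refine Eq.trans ?_ S.sum_one
      exact Finset.sum_congr rfl fun ω _ => by ring)
  refine ⟨R, fun ω => (φ ω).1, fun ω => (φ ω).2 = true, fun A => ?_, fun A => ?_⟩
  · rw [hφ (fun z => A z.1), Fintype.sum_prod_type]
    unfold Pr
    refine Finset.sum_congr rfl fun ω _ => ?_
    by_cases h : A ω
    · simp [h]
      ring
    · simp [h]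
  · rw [hφ (fun z => A z.1 ∧ z.2 = true), Fintype.sum_prod_type]
    unfold Pr
    rw [Finset.mul_sum]
    refine Finset.sum_congr rfl fun ω _ => ?_
    by_cases h : A ω
    · simp [h]
      ring
    · simp [h]

/-- glue two spaces along labels with equal distributions -/
theorem glue (S T : Sp) {σ : Type} (s : S.Ω → σ) (t : T.Ω → σ)
    (h : ∀ a, S.Pr (fun ω => s ω = a) = T.Pr (fun π => t π = a)) :
    ∃ (R : Sp) (φ : R.Ω → S.Ω) (ψ : R.Ω → T.Ω),
      (∀ A : S.Ω → Prop, R.Pr (fun ω => A (φ ω)) = S.Pr A) ∧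
      (∀ B : T.Ω → Prop, R.Pr (fun ω => B (ψ ω)) = T.Pr B) ∧
      ∀ ω, s (φ ω) = t (ψ ω) := by
  classical
  have hq : ∀ ω, 0 < S.Pr (fun ω' => s ω' = s ω) := fun ω =>
    Pr_pos (A := fun ω' => s ω' = s ω) rfl
  let w : S.Ω × T.Ω → ℝ := fun z =>
    if s z.1 = t z.2 then S.p z.1 * T.p z.2 / S.Pr (fun ω' => s ω' = s z.1) else 0
  have hrow : ∀ ω, ∑ π, w (ω, π) = S.p ω := by
    intro ω
    have h1 : ∑ π, w (ω, π) = S.p ω / S.Pr (fun ω' => s ω' = s ω) *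
        T.Pr (fun π => t π = s ω) := by
      unfold Pr
      rw [Finset.mul_sum]
      refine Finset.sum_congr rfl fun π _ => ?_
      simp only [w]
      by_cases h2 : s ω = t π
      · rw [if_pos h2, if_pos h2.symm]
        unfold Pr
        ring
      · rw [if_neg h2, if_neg (Ne.symm h2), mul_zero]
    rw [h1, ← h, div_mul_cancel₀ _ (hq ω).ne']
  have hcol : ∀ π, ∑ ω, w (ω, π) = T.p π := by
    intro π
    have hq' : 0 < T.Pr (fun π' => t π' = t π) := Pr_pos (A := fun π' => t π' = t π) rfl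
    have h1 : ∑ ω, w (ω, π) = T.p π / T.Pr (fun π' => t π' = t π) *
        S.Pr (fun ω => s ω = t π) := by
      unfold Pr
      rw [Finset.mul_sum]
      refine Finset.sum_congr rfl fun ω _ => ?_
      simp only [w]
      by_cases h2 : s ω = t π
      · rw [if_pos h2, if_pos h2]
        have h3 := h (t π)
        unfold Pr at h3
        rw [← h3, h2]
        unfold Pr
        ring
      · rw [if_neg h2, if_neg h2, mul_zero]
    rw [h1, h, div_mul_cancel₀ _ hq'.ne']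
  have hw0 : ∀ z, 0 ≤ w z := by
    intro z
    simp only [w]
    split_ifs
    · exact div_nonneg (mul_nonneg (S.pos _).le (T.pos _).le) (hq _).le
    · exact le_rfl
  obtain ⟨R, φ, hne, hφ⟩ := exists_of_weight (Ω := S.Ω × T.Ω) w hw0 (by
    rw [Fintype.sum_prod_type, ← S.sum_one]
    exact Finset.sum_congr rfl fun ω _ => hrow ω)
  refine ⟨R, fun ω => (φ ω).1, fun ω => (φ ω).2, fun A => ?_, fun B => ?_, fun ω => ?_⟩
  · rw [hφ (fun z => A z.1), Fintype.sum_prod_type]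
    unfold Pr
    refine Finset.sum_congr rfl fun ω _ => ?_
    by_cases h1 : A ω
    · simp only [h1, if_true]
      exact hrow ω
    · simp [h1]
  · rw [hφ (fun z => B z.2), Fintype.sum_prod_type_right]
    unfold Pr
    refine Finset.sum_congr rfl fun π _ => ?_
    by_cases h1 : B π
    · simp only [h1, if_true]
      exact hcol π
    · simp [h1]
  · by_contra hcon
    refine hne ω ?_
    simp only [w]
    rw [if_neg hcon]

/-- gluing along two events -/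
theorem glue2 (S T : Sp) (A B : S.Ω → Prop) (C D : T.Ω → Prop) (h1 : S.Pr A = T.Pr C)
    (h2 : S.Pr B = T.Pr D) (h3 : S.Pr (fun ω => A ω ∧ B ω) = T.Pr (fun ω => C ω ∧ D ω)) :
    ∃ (R : Sp) (φ : R.Ω → S.Ω) (ψ : R.Ω → T.Ω),
      (∀ A : S.Ω → Prop, R.Pr (fun ω => A (φ ω)) = S.Pr A) ∧
      (∀ B : T.Ω → Prop, R.Pr (fun ω => B (ψ ω)) = T.Pr B) ∧
      ∀ ω, (A (φ ω) ↔ C (ψ ω)) ∧ (B (φ ω) ↔ D (ψ ω)) := by
  have e1 := S.Pr_split A B
  have e2 := T.Pr_split C D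
  have e3 := S.Pr_split B A
  have e4 := T.Pr_split D C
  have e5 : S.Pr (fun ω => B ω ∧ A ω) = S.Pr (fun ω => A ω ∧ B ω) := Pr_congr fun ω => and_comm
  have e6 : T.Pr (fun ω => D ω ∧ C ω) = T.Pr (fun ω => C ω ∧ D ω) := Pr_congr fun ω => and_comm
  have e7 := S.Pr_split (fun ω => ¬ A ω) B
  have e8 := T.Pr_split (fun ω => ¬ C ω) D
  have e9 := S.Pr_not A
  have e10 := T.Pr_not C
  have e11 : S.Pr (fun ω => ¬ A ω ∧ B ω) = S.Pr (fun ω => B ω ∧ ¬ A ω) := Pr_congr fun ω => and_comm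
  have e12 : T.Pr (fun ω => ¬ C ω ∧ D ω) = T.Pr (fun ω => D ω ∧ ¬ C ω) := Pr_congr fun ω => and_comm
  obtain ⟨R, φ, ψ, hφ, hψ, hag⟩ := glue S T (fun ω => (A ω, B ω)) (fun ω => (C ω, D ω)) (by
    rintro ⟨a, b⟩
    by_cases ha : a <;> by_cases hb : b
    · have f1 : S.Pr (fun ω => (A ω, B ω) = (a, b)) = S.Pr (fun ω => A ω ∧ B ω) :=
        Pr_congr fun ω => by simp [ha, hb]
      have f2 : T.Pr (fun ω => (C ω, D ω) = (a, b)) = T.Pr (fun ω => C ω ∧ D ω) :=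
        Pr_congr fun ω => by simp [ha, hb]
      rw [f1, f2]; linarith
    · have f1 : S.Pr (fun ω => (A ω, B ω) = (a, b)) = S.Pr (fun ω => A ω ∧ ¬ B ω) :=
        Pr_congr fun ω => by simp [ha, hb]
      have f2 : T.Pr (fun ω => (C ω, D ω) = (a, b)) = T.Pr (fun ω => C ω ∧ ¬ D ω) :=
        Pr_congr fun ω => by simp [ha, hb]
      rw [f1, f2]; linarith
    · have f1 : S.Pr (fun ω => (A ω, B ω) = (a, b)) = S.Pr (fun ω => ¬ A ω ∧ B ω) :=
        Pr_congr fun ω => by simp [ha, hb]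
      have f2 : T.Pr (fun ω => (C ω, D ω) = (a, b)) = T.Pr (fun ω => ¬ C ω ∧ D ω) :=
        Pr_congr fun ω => by simp [ha, hb]
      rw [f1, f2]; linarith
    · have f1 : S.Pr (fun ω => (A ω, B ω) = (a, b)) = S.Pr (fun ω => ¬ A ω ∧ ¬ B ω) :=
        Pr_congr fun ω => by simp [ha, hb]
      have f2 : T.Pr (fun ω => (C ω, D ω) = (a, b)) = T.Pr (fun ω => ¬ C ω ∧ ¬ D ω) :=
        Pr_congr fun ω => by simp [ha, hb]
      rw [f1, f2]; linarith)
  refine ⟨R, φ, ψ, hφ, hψ, fun ω => ?_⟩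
  have := hag ω
  simp only [Prod.mk.injEq] at this
  exact ⟨iff_of_eq this.1, iff_of_eq this.2⟩

/-- independent product -/
theorem prod (S T : Sp) :
    ∃ (R : Sp) (φ : R.Ω → S.Ω) (ψ : R.Ω → T.Ω),
      (∀ A : S.Ω → Prop, R.Pr (fun ω => A (φ ω)) = S.Pr A) ∧
      (∀ B : T.Ω → Prop, R.Pr (fun ω => B (ψ ω)) = T.Pr B) := by
  obtain ⟨R, φ, ψ, h1, h2, -⟩ := glue S T (fun _ => ()) (fun _ => ()) (fun a => by
    have e1 : S.Pr (fun _ => () = a) = S.Pr (fun _ => True) := Pr_congr fun ω => by simp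
    have e2 : T.Pr (fun _ => () = a) = T.Pr (fun _ => True) := Pr_congr fun ω => by simp
    rw [e1, e2, Pr_true, Pr_true])
  exact ⟨R, φ, ψ, h1, h2⟩

/-- mixture of two laws -/
theorem mix (S T : Sp) (c : ℝ) (hc0 : 0 ≤ c) (hc1 : c ≤ 1) :
    ∃ (R : Sp) (φ : R.Ω → S.Ω) (ψ : R.Ω → T.Ω) (b : R.Ω → Prop),
      ∀ (A : S.Ω → Prop) (B : T.Ω → Prop),
        R.Pr (fun ω => (b ω ∧ A (φ ω)) ∨ (¬ b ω ∧ B (ψ ω))) = c * S.Pr A + (1 - c) * T.Pr B := by
  obtain ⟨P, φ, ψ, h1, h2⟩ := prod S T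
  obtain ⟨R, θ, b, h3, h4⟩ := P.coin c hc0 hc1
  refine ⟨R, fun ω => φ (θ ω), fun ω => ψ (θ ω), b, fun A B => ?_⟩
  have e1 := R.Pr_split (fun ω => (b ω ∧ A (φ (θ ω))) ∨ (¬ b ω ∧ B (ψ (θ ω)))) b
  have e2 : R.Pr (fun ω => ((b ω ∧ A (φ (θ ω))) ∨ (¬ b ω ∧ B (ψ (θ ω)))) ∧ b ω) =
      R.Pr (fun ω => A (φ (θ ω)) ∧ b ω) := Pr_congr fun ω => by tauto
  have e3 : R.Pr (fun ω => ((b ω ∧ A (φ (θ ω))) ∨ (¬ b ω ∧ B (ψ (θ ω)))) ∧ ¬ b ω) =
      R.Pr (fun ω => B (ψ (θ ω)) ∧ ¬ b ω) := Pr_congr fun ω => by tauto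
  have e4 := h4 (fun ω => A (φ ω))
  have e5 := h4 (fun ω => B (ψ ω))
  have e6 := h3 (fun ω => B (ψ ω))
  have e7 := R.Pr_split (fun ω => B (ψ (θ ω))) b
  rw [h1] at e4
  rw [h2] at e5 e6
  rw [e1, e2, e3]
  linarith

end Sp

end Pool.Agent.H49.Fdom
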